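import Pool.Agent.H14.CT.Df

/-!
ROW Jd (project MP_78d38b_T1, Mathlib only, about 120 lines). Removing the classes `c` with
`c ^ (p - 1) = 1` modulo `p ^ 2` from a set of classes stable under multiplication by `v`.

PROOF. Let `B` be the subset of the `c ∈ A` with `p ^ 2 ∣ (c.val.val) ^ (p - 1) - 1`. It suffices that
`p * B.card ≤ A.card` (then the rest has `A.card - B.card ≥ (1 - 1/p) A.card` elements:
`Finset.card_filter_add_card_filter_not` or `Finset.filter_card_add_filter_neg_card_eq_card`).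
The map `B × Fin p → A`, `(c, j) ↦ c * v ^ j` (in `A` by iterating `hA`) is injective: let
`c v ^ j = c' v ^ j'` with `c, c' ∈ B`. Apply the ring homomorphism `ZMod m → ZMod (p ^ 2)`
(`ZMod.castHom hm`) and raise to the power `p - 1`: the images of `c ^ (p - 1)`, `c' ^ (p - 1)` are one
(for a unit `c`, `(c.val.val : ZMod m) = c.val` by `ZMod.natCast_zmod_val`; `p ∤ c.val.val` as it is a
unit, `c.val.val ^ (p - 1) ≥ 1`, so the subtraction of natural numbers is the true one), and the image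
of `v` is `1 + p`, whence `(1 + p) ^ (j (p - 1)) = (1 + p) ^ (j' (p - 1))` in `ZMod (p ^ 2)`. As
`p ^ 2 = 0` there, `(1 + p) ^ n = 1 + n p` (induction on `n`). So `p ^ 2 ∣ p (p - 1) (j - j')`
(integers), so `p ∣ (p - 1) (j - j')`, `p ∣ j - j'`, and `j = j'` because `0 ≤ j, j' < p`. Then
`c = c'`.
-/

set_option autoImplicit false
open scoped Classical

namespace H14CT

theorem Jd {m p : ℕ} (lv : ℕ) [NeZero m] (hp : p.Prime) (h2 : p ≠ 2) (hm : p ^ (lv + 2) ∣ m) {v : (ZMod m)ˣ}
    (hv : (v : ZMod m).val ≡ 1 + p [MOD p ^ (lv + 2)]) (A : Finset (ZMod m)ˣ) (hA : ∀ c ∈ A, c * v ∈ A) :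
    (1 - 1 / (p : ℝ) ^ (lv + 1)) * A.card ≤
      ((A.filter fun c : (ZMod m)ˣ => ¬ p ^ (lv + 2) ∣ ((c : ZMod m).val) ^ (p - 1) - 1).card : ℝ) := by
  have hp0 : 0 < p := hp.pos
  have hm1 : 1 < m := by
    have h1 : p ^ (lv + 2) ≤ m := Nat.le_of_dvd (Nat.pos_of_ne_zero (NeZero.ne m)) hm
    have h3 : 1 < p ^ (lv + 2) := Nat.one_lt_pow (by omega) hp.one_lt
    omega
  have : Fact (1 < m) := ⟨hm1⟩
  set φ : ZMod m →+* ZMod (p ^ (lv + 2)) := ZMod.castHom hm (ZMod (p ^ (lv + 2))) with hφ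
  have hφval : ∀ a : ZMod m, φ a = ((a.val : ℕ) : ZMod (p ^ (lv + 2))) := by
    intro a
    rw [hφ, ZMod.castHom_apply, ZMod.natCast_val]
  have hφv : φ (v : ZMod m) = 1 + (p : ZMod (p ^ (lv + 2))) := by
    rw [hφval, (ZMod.natCast_eq_natCast_iff _ _ _).2 hv]
    push_cast
    rfl
  set u : (ZMod (p ^ (lv + 2)))ˣ := Units.map (φ : ZMod m →* ZMod (p ^ (lv + 2))) v with hu
  have huv : (u : ZMod (p ^ (lv + 2))) = 1 + (p : ZMod (p ^ (lv + 2))) := hφv
  have hord : orderOf u = p ^ (lv + 1) := by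
    rw [← orderOf_units, huv]
    exact ZMod.orderOf_one_add_prime hp h2 (lv + 1)
  set B := A.filter fun c : (ZMod m)ˣ => p ^ (lv + 2) ∣ ((c : ZMod m).val) ^ (p - 1) - 1 with hB
  have hBφ : ∀ c ∈ B, φ (c : ZMod m) ^ (p - 1) = 1 := by
    intro c hc
    have h1 := (Finset.mem_filter.1 hc).2
    have h3 : (c : ZMod m).val ≠ 0 := by
      rw [Ne, ZMod.val_eq_zero]
      exact c.ne_zero
    have h4 : 1 ≤ (c : ZMod m).val ^ (p - 1) := Nat.one_le_iff_ne_zero.2 (pow_ne_zero _ h3)
    have h5 := (ZMod.natCast_eq_zero_iff _ _).2 h1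
    rw [Nat.cast_sub h4, Nat.cast_pow, Nat.cast_one, sub_eq_zero] at h5
    rw [hφval]
    exact h5
  have hAj : ∀ j : ℕ, ∀ c ∈ A, c * v ^ j ∈ A := by
    intro j
    induction j with
    | zero => intro c hc; simpa using hc
    | succ j ih =>
      intro c hc
      rw [pow_succ, ← mul_assoc]
      exact hA _ (ih c hc)
  have hle : p ^ (lv + 1) * B.card ≤ A.card := by
    have h1 : (B ×ˢ (Finset.univ : Finset (Fin (p ^ (lv + 1))))).card ≤ A.card := by
      refine Finset.card_le_card_of_injOn (fun x => x.1 * v ^ (x.2 : ℕ)) ?_ ?_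
      · rintro ⟨c, j⟩ hx
        have hc := (Finset.mem_product.1 hx).1
        exact hAj _ _ (Finset.mem_filter.1 hc).1
      · rintro ⟨c, j⟩ hx ⟨c', j'⟩ hx' h
        have hc := hBφ c (Finset.mem_product.1 hx).1
        have hc' := hBφ c' (Finset.mem_product.1 hx').1
        have h0 : c * v ^ (j : ℕ) = c' * v ^ (j' : ℕ) := h
        have h3 : φ (c : ZMod m) * (1 + (p : ZMod (p ^ (lv + 2)))) ^ (j : ℕ) =
            φ (c' : ZMod m) * (1 + (p : ZMod (p ^ (lv + 2)))) ^ (j' : ℕ) := by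
          rw [← hφv, ← map_pow, ← map_pow, ← map_mul, ← map_mul]
          have h4 := congrArg (Units.val) h0
          push_cast at h4
          rw [h4]
        have h5 := congrArg (fun x => x ^ (p - 1)) h3
        simp only [mul_pow] at h5
        rw [hc, hc', one_mul, one_mul, ← pow_mul, ← pow_mul, ← huv] at h5
        have h6 : u ^ ((j : ℕ) * (p - 1)) = u ^ ((j' : ℕ) * (p - 1)) := by
          apply Units.ext
          push_cast
          exact h5
        have h7 := pow_eq_pow_iff_modEq.1 h6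
        rw [hord] at h7
        have h8 : Nat.gcd (p ^ (lv + 1)) (p - 1) = 1 := by
          have : Nat.Coprime p (p - 1) := by
            rw [Nat.coprime_comm]
            exact Nat.Coprime.symm ((Nat.Prime.coprime_iff_not_dvd hp).2 fun hd => by
              have := Nat.le_of_dvd (by have := hp.two_le; omega) hd
              omega)
          exact Nat.Coprime.pow_left _ this
        have h9 := Nat.ModEq.cancel_right_of_coprime h8 h7
        have h10 : (j : ℕ) = (j' : ℕ) := Nat.ModEq.eq_of_lt_of_lt h9 j.2 j'.2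
        have h11 : j = j' := Fin.ext h10
        subst h11
        rw [mul_right_cancel h0]
    rw [Finset.card_product, Finset.card_univ, Fintype.card_fin, mul_comm] at h1
    exact h1
  have hsum := Finset.card_filter_add_card_filter_not (s := A)
    (fun c : (ZMod m)ˣ => p ^ (lv + 2) ∣ ((c : ZMod m).val) ^ (p - 1) - 1)
  have h1 : ((A.filter fun c : (ZMod m)ˣ => ¬ p ^ (lv + 2) ∣ ((c : ZMod m).val) ^ (p - 1) - 1).card : ℝ) =
      A.card - B.card := by
    have h3 : (B.card : ℝ) +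
        (A.filter fun c : (ZMod m)ˣ => ¬ p ^ (lv + 2) ∣ ((c : ZMod m).val) ^ (p - 1) - 1).card = A.card := by
      exact_mod_cast hsum
    linarith
  rw [h1]
  have h3 : (p : ℝ) ^ (lv + 1) * B.card ≤ A.card := by exact_mod_cast hle
  have hpR : (0 : ℝ) < (p : ℝ) ^ (lv + 1) := by
    have : (0 : ℝ) < p := by exact_mod_cast hp0
    positivity
  have h4 : (B.card : ℝ) ≤ 1 / (p : ℝ) ^ (lv + 1) * A.card := by
    rw [one_div, inv_mul_eq_div, le_div_iff₀ hpR]
    linarith
  linarith

end H14CT
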