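import Pool.Agent.H14.CT.Nd
import Pool.Agent.H14.CT.Jd

/-!
ROW Ad (project MP_78d38b_T1). The density of the admissible classes.
-/

set_option autoImplicit false
open scoped Classical

open NumberTheorySymbols

namespace H14CT

private theorem Ad_sq_dvd {lv : ℕ} {T : Finset ℕ} {q : ℕ} (hq : q ∈ T) : q ^ (lv + 2) ∣ md lv T := by
  unfold md
  exact (Finset.dvd_prod_of_mem (fun q => q ^ (lv + 2)) hq).mul_left 8

/-- the unit of the Chinese remainder theorem -/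
private theorem Ad_unit (lv : ℕ) {T : Finset ℕ} (hT : ∀ q ∈ T, q.Prime ∧ q ≠ 2) {p : ℕ} (hp : p ∈ T) :
    ∃ v : (ZMod (md lv T))ˣ, (v : ZMod (md lv T)).val ≡ 1 + p [MOD p ^ (lv + 2)] ∧
      (v : ZMod (md lv T)).val ≡ 1 [MOD 8 * ∏ q ∈ T, q] ∧
      ∀ q ∈ T, q ≠ p → (v : ZMod (md lv T)).val ≡ 1 [MOD q ^ (lv + 2)] := by
  have hpp := (hT p hp).1
  obtain ⟨R, hR⟩ : ∃ R, R = 8 * ∏ q ∈ T.erase p, q ^ (lv + 2) := ⟨_, rfl⟩
  obtain ⟨R', hR'⟩ : ∃ R', R' = 8 * ∏ q ∈ T.erase p, q := ⟨_, rfl⟩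
  have hmd : md lv T = p ^ (lv + 2) * R := by
    unfold md
    rw [← Finset.mul_prod_erase T (fun q => q ^ (lv + 2)) hp, hR]
    ring
  have hmd' : 8 * ∏ q ∈ T, q = p * R' := by
    rw [← Finset.mul_prod_erase T (fun q => q) hp, hR']
    ring
  have hR'R : R' ∣ R := by
    rw [hR, hR']
    exact Nat.mul_dvd_mul_left _ (Finset.prod_dvd_prod_of_dvd _ _ fun q _ => dvd_pow_self q (by omega))
  have hco8 : Nat.Coprime p 8 := by
    have : Nat.Coprime p (2 ^ 3) := Nat.Coprime.pow_right _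
      ((Nat.coprime_primes hpp Nat.prime_two).2 (hT p hp).2)
    exact this
  have hcoR : Nat.Coprime p R := by
    rw [hR]
    apply Nat.Coprime.mul_right hco8
    apply Nat.Coprime.prod_right
    intro q hq
    apply Nat.Coprime.pow_right
    exact (Nat.coprime_primes hpp (hT q (Finset.mem_of_mem_erase hq)).1).2 (Finset.ne_of_mem_erase hq).symm
  have hcoR2 : Nat.Coprime (p ^ (lv + 2)) R := Nat.Coprime.pow_left _ hcoR
  obtain ⟨v0, hv1, hv2⟩ := Nat.chineseRemainder hcoR2 (1 + p) 1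
  have hvp : v0 ≡ 1 [MOD p] := by
    have h1 : v0 ≡ 1 + p [MOD p] := hv1.of_dvd (dvd_pow_self p (by omega))
    exact h1.trans (by simp [Nat.ModEq])
  have hcop : Nat.Coprime v0 (md lv T) := by
    rw [hmd]
    apply Nat.Coprime.mul_right
    · apply Nat.Coprime.pow_right
      have := hvp.gcd_eq
      rw [Nat.gcd_one_left] at this
      exact this
    · have := hv2.gcd_eq
      rw [Nat.gcd_one_left] at this
      exact this
  have hne : md lv T ≠ 0 := md_ne lv hT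
  have : NeZero (md lv T) := ⟨hne⟩
  have hval : ((ZMod.unitOfCoprime v0 hcop : (ZMod (md lv T))ˣ) : ZMod (md lv T)).val ≡ v0 [MOD md lv T] := by
    rw [ZMod.coe_unitOfCoprime, ZMod.val_natCast]
    exact Nat.mod_modEq _ _
  refine ⟨ZMod.unitOfCoprime v0 hcop, ?_, ?_, ?_⟩
  · exact (hval.of_dvd (Ad_sq_dvd hp)).trans hv1
  · refine (hval.of_dvd (md_dvd lv T)).trans ?_
    rw [hmd']
    rw [← Nat.modEq_and_modEq_iff_modEq_mul (hcoR.coprime_dvd_right hR'R)]
    exact ⟨hvp, hv2.of_dvd hR'R⟩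
  · intro q hq hqp
    refine (hval.of_dvd (Ad_sq_dvd hq)).trans ?_
    apply hv2.of_dvd
    rw [hR]
    exact (Finset.dvd_prod_of_mem (fun q => q ^ (lv + 2)) (Finset.mem_erase.2 ⟨hqp, hq⟩)).mul_left 8

private theorem Ad_dvd_iff {a b n k : ℕ} (ha : 1 ≤ a) (hb : 1 ≤ b) (h : a ≡ b [MOD n]) :
    n ∣ a ^ k - 1 ↔ n ∣ b ^ k - 1 := by
  rw [← Nat.modEq_iff_dvd' (Nat.one_le_pow _ _ ha), ← Nat.modEq_iff_dvd' (Nat.one_le_pow _ _ hb)]
  have h1 := h.pow k
  exact ⟨fun h2 => h2.trans h1, fun h2 => h2.trans h1.symm⟩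

private theorem Ad_pos {m : ℕ} (hm : 8 ∣ m) (c : (ZMod m)ˣ) : 1 ≤ (c : ZMod m).val := by
  have h1 := ZMod.val_coe_unit_coprime c
  by_contra h
  have h2 : (c : ZMod m).val = 0 := by omega
  rw [h2, Nat.coprime_zero_left] at h1
  rw [h1] at hm
  norm_num at hm

theorem Ad {b D : ℤ} (hb : b ≠ 0) (hD : D ≠ 0) {lv : ℕ} {T S : Finset ℕ} (hT : ∀ q ∈ T, q.Prime ∧ q ≠ 2)
    (hQ : ∀ q : ℕ, q.Prime → q ≠ 2 → (q : ℤ) ∣ b * D → q ∈ T) (hS : S ⊆ T) {c₀ : ℕ}
    (hc₀ : c₀.Coprime (md lv T)) (h1 : J(b | c₀) = -1) (h2 : J(D | c₀) = -1) :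
    ∃ A : Finset (ZMod (md lv T)), A.Nonempty ∧ (∀ c ∈ A, IsUnit c) ∧
      (1 / 4 * ∏ p ∈ S, (1 - 1 / (p : ℝ) ^ (lv + 1))) * (md lv T).totient ≤ A.card ∧
      ∀ l : ℕ, l.Prime → (l : ZMod (md lv T)) ∈ A →
        Neu b D l ∧ ∀ p ∈ S, ¬ p ^ (lv + 2) ∣ l ^ (p - 1) - 1 := by
  have hne : md lv T ≠ 0 := md_ne lv hT
  have hNe : NeZero (md lv T) := ⟨hne⟩
  have h8 : 8 ∣ md lv T := by
    unfold md
    exact dvd_mul_right _ _
  have key : ∀ S' : Finset ℕ, S' ⊆ S → ∃ A : Finset (ZMod (md lv T))ˣ,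
      (1 / 4 * ∏ p ∈ S', (1 - 1 / (p : ℝ) ^ (lv + 1))) * (md lv T).totient ≤ A.card ∧
      (∀ c ∈ A, ∀ l : ℕ, l.Prime → (l : ZMod (md lv T)) = c →
        Neu b D l ∧ ∀ p ∈ S', ¬ p ^ (lv + 2) ∣ l ^ (p - 1) - 1) ∧
      ∀ c ∈ A, ∀ v : (ZMod (md lv T))ˣ, (v : ZMod (md lv T)).val ≡ 1 [MOD 8 * ∏ q ∈ T, q] →
        (∀ p ∈ S', (v : ZMod (md lv T)).val ≡ 1 [MOD p ^ (lv + 2)]) → c * v ∈ A := by
    intro S'
    induction S' using Finset.induction_on with
    | empty =>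
      intro _
      obtain ⟨A, hA1, hA2, hA3⟩ := Nd hb hD hT hQ hc₀ h1 h2
      refine ⟨A, ?_, fun c hc l hl hlc => ⟨hA2 c hc l hl hlc, by simp⟩, fun c hc v hv _ => hA3 c hc v hv⟩
      rw [Finset.prod_empty, mul_one]
      have h3 : ((md lv T).totient : ℝ) ≤ 4 * A.card := by exact_mod_cast hA1
      linarith
    | insert p S' hpS' ih =>
      intro hsub
      have hpS : p ∈ S := hsub (Finset.mem_insert_self _ _)
      have hpT := hS hpS
      have hpp := (hT p hpT).1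
      obtain ⟨A, hA1, hA2, hA3⟩ := ih (fun q hq => hsub (Finset.mem_insert_of_mem hq))
      obtain ⟨v, hv1, hv2, hv3⟩ := Ad_unit lv hT hpT
      have hcv : ∀ c ∈ A, c * v ∈ A := by
        intro c hc
        apply hA3 c hc v hv2
        intro q hq
        apply hv3 q (hS (hsub (Finset.mem_insert_of_mem hq)))
        rintro rfl
        exact hpS' hq
      have hJ := Jd lv hpp (hT p hpT).2 (Ad_sq_dvd hpT) hv1 A hcv
      have hp1 : (0 : ℝ) ≤ 1 - 1 / (p : ℝ) ^ (lv + 1) := by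
        have h3 : (1 : ℝ) ≤ (p : ℝ) ^ (lv + 1) := by
          exact_mod_cast Nat.one_le_pow _ _ hpp.pos
        have h4 : 1 / (p : ℝ) ^ (lv + 1) ≤ 1 := by
          rw [div_le_one (by linarith)]
          exact h3
        linarith
      refine ⟨A.filter fun c : (ZMod (md lv T))ˣ => ¬ p ^ (lv + 2) ∣ ((c : ZMod (md lv T)).val) ^ (p - 1) - 1, ?_, ?_, ?_⟩
      · refine le_trans ?_ hJ
        rw [Finset.prod_insert hpS']
        have h3 := mul_le_mul_of_nonneg_left hA1 hp1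
        calc _ = (1 - 1 / (p : ℝ) ^ (lv + 1)) * ((1 / 4 * ∏ p ∈ S', (1 - 1 / (p : ℝ) ^ (lv + 1))) * (md lv T).totient) := by ring
          _ ≤ _ := h3
      · intro c hc l hl hlc
        rw [Finset.mem_filter] at hc
        obtain ⟨h3, h4⟩ := hA2 c hc.1 l hl hlc
        refine ⟨h3, ?_⟩
        intro q hq
        rw [Finset.mem_insert] at hq
        rcases hq with rfl | hq
        · have h5 : (c : ZMod (md lv T)).val ≡ l [MOD q ^ (lv + 2)] := by
            have h6 : (c : ZMod (md lv T)).val ≡ l [MOD md lv T] := by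
              rw [← hlc, ZMod.val_natCast]
              exact Nat.mod_modEq _ _
            exact h6.of_dvd (Ad_sq_dvd hpT)
          rw [← Ad_dvd_iff (Ad_pos h8 c) hl.one_le h5]
          exact hc.2
        · exact h4 q hq
      · intro c hc w hw1 hw2
        rw [Finset.mem_filter] at hc ⊢
        refine ⟨hA3 c hc.1 w hw1 (fun q hq => hw2 q (Finset.mem_insert_of_mem hq)), ?_⟩
        have h5 : ((c * w : (ZMod (md lv T))ˣ) : ZMod (md lv T)).val ≡ (c : ZMod (md lv T)).val [MOD p ^ (lv + 2)] := by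
          have h6 : ((c * w : (ZMod (md lv T))ˣ) : ZMod (md lv T)).val ≡
              (c : ZMod (md lv T)).val * (w : ZMod (md lv T)).val [MOD md lv T] := by
            rw [Units.val_mul, ZMod.val_mul]
            exact Nat.mod_modEq _ _
          have h7 := (h6.of_dvd (Ad_sq_dvd hpT)).trans
            ((hw2 p (Finset.mem_insert_self _ _)).mul_left (c : ZMod (md lv T)).val)
          rwa [mul_one] at h7
        rw [Ad_dvd_iff (Ad_pos h8 (c * w)) (Ad_pos h8 c) h5]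
        exact hc.2
  obtain ⟨A, hA1, hA2, -⟩ := key S (Finset.Subset.refl _)
  have hcard : (A.image (fun c : (ZMod (md lv T))ˣ => (c : ZMod (md lv T)))).card = A.card :=
    Finset.card_image_of_injective _ Units.val_injective
  have hpos : 0 < (1 / 4 * ∏ p ∈ S, (1 - 1 / (p : ℝ) ^ (lv + 1))) * (md lv T).totient := by
    have h3 : 0 < ∏ p ∈ S, (1 - 1 / (p : ℝ) ^ (lv + 1)) := by
      apply Finset.prod_pos
      intro p hp
      have h4 : (1 : ℝ) < (p : ℝ) ^ (lv + 1) := by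
        exact_mod_cast Nat.one_lt_pow (by omega) (hT p (hS hp)).1.one_lt
      have h5 : 1 / (p : ℝ) ^ (lv + 1) < 1 := by
        rw [div_lt_one (by linarith)]
        exact h4
      linarith
    have h4 : (0 : ℝ) < (md lv T).totient := by
      exact_mod_cast Nat.totient_pos.2 (Nat.pos_of_ne_zero hne)
    positivity
  refine ⟨A.image (fun c : (ZMod (md lv T))ˣ => (c : ZMod (md lv T))), ?_, ?_, ?_, ?_⟩
  · rw [← Finset.card_pos, hcard]
    have h3 : (0 : ℝ) < A.card := lt_of_lt_of_le hpos hA1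
    exact_mod_cast h3
  · intro c hc
    obtain ⟨d, -, rfl⟩ := Finset.mem_image.1 hc
    exact d.isUnit
  · rw [hcard]
    exact hA1
  · intro l hl hlA
    obtain ⟨d, hd, hdl⟩ := Finset.mem_image.1 hlA
    exact hA2 d hd l hl hdl.symm

end H14CT
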