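import Pool.Agent.H14.CT.Df

/-!
ROW As (project MP_78d38b_T1, Mathlib only, about 170 lines). From a lower bound for `∑ 1 / d` to a
lower bound for the counting function of the products `p e`.

PROOF. Let `x` be large, `w = √x / (2 K)`. For `d ∈ [1, w]` with `P d` put `e = r d`; then
`1 ≤ e ≤ K d ≤ √x / 2`. With `y = √x`, `z = x / e ≥ 2 √x` the hypothesis `hp` gives for the class
`a = cl d` at least `c₁ z / log z ≥ c₁ x / (K d log x)` primes `p` with `√x < p ≤ x / e`, `p = a` in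
`ZMod m` (for `z ≥ 1` we have `log z ≤ log x` as `e ≥ 1`, and `z = x / e ≥ x / (K d)`). For all of them
`G (p * e)` holds by `hG` if `√x ≥ N` (`p > √x ≥ e`), and `p * e ≤ x`.
Distinct pairs `(d, p)` give distinct products: if `p e = p' e'` with `p, p' > √x` and
`1 ≤ e, e' ≤ √x / 2`, then `p ∣ p' e'`, so `p = p'` or `p ∣ e'`; the latter is impossible because
`0 < e' < p`. So `p = p'`, `e = e'` and `d = d'` by `hr`.
Hence the number of `g ∈ [1, x]` with `G g` is at least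
`∑_{d ≤ w, P d} c₁ x / (K d log x) ≥ (c₁ / K) (x / log x) c₂ (log w) ^ κ`, and `log w ≥ (1/4) log x` for
`x` large, so `(log w) ^ κ ≥ (1/4) ^ κ (log x) ^ κ`. Take `c = (c₁ c₂ / K) (1/4) ^ κ`
(`x / log x * (log x) ^ κ = x (log x) ^ (κ - 1)`, `Real.rpow_sub_one`). For the count use the
injection of the sigma type (`Finset.sigma`, `Finset.card_sigma`, `Finset.card_le_card_of_injOn`)
`(d, p) ↦ p * r d` into the filter.
-/

set_option autoImplicit false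
open scoped Classical

namespace H14CT

theorem As_card {m : ℕ} {P G : ℕ → Prop} {K N : ℕ} (r : ℕ → ℕ) (cl : ℕ → ZMod m)
    (hr : Set.InjOn r {d | P d}) (h0 : ∀ d, P d → 0 < d → 0 < r d ∧ r d ≤ K * d)
    (hG : ∀ d, P d → ∀ p : ℕ, p.Prime → N < p → r d < p → (p : ZMod m) = cl d → G (p * r d))
    {x : ℝ} (hx : 4 ≤ x) (hN : (N : ℝ) ≤ √x) {w : ℝ} (hw : K * w ≤ √x / 2) :
    ∑ d ∈ (Finset.Icc 1 ⌊w⌋₊).filter P, (((Finset.Icc 1 ⌊x / r d⌋₊).filter
      fun p : ℕ => p.Prime ∧ √x < p ∧ (p : ZMod m) = cl d).card) ≤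
      ((Finset.Icc 1 ⌊x⌋₊).filter G).card := by
  rw [← Finset.card_sigma]
  have hx0 : 0 < √x := Real.sqrt_pos.2 (by linarith)
  have hS : ∀ d, d ∈ (Finset.Icc 1 ⌊w⌋₊).filter P → P d ∧ 0 < r d ∧ (r d : ℝ) ≤ √x / 2 := by
    intro d hd
    rw [Finset.mem_filter, Finset.mem_Icc] at hd
    obtain ⟨⟨hd1, hd2⟩, hPd⟩ := hd
    obtain ⟨h1, h2⟩ := h0 d hPd hd1
    refine ⟨hPd, h1, ?_⟩
    have h3 : (d : ℝ) ≤ w := (Nat.le_floor_iff' (by omega)).1 hd2
    have h4 : ((r d : ℕ) : ℝ) ≤ (K : ℝ) * d := by exact_mod_cast h2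
    have h5 := mul_le_mul_of_nonneg_left h3 (Nat.cast_nonneg (α := ℝ) K)
    linarith
  apply Finset.card_le_card_of_injOn (fun s => s.2 * r s.1)
  · rintro ⟨d, p⟩ hs
    rw [Finset.mem_coe, Finset.mem_sigma] at hs
    obtain ⟨hd, hp⟩ := hs
    obtain ⟨hPd, hr0, hrx⟩ := hS d hd
    rw [Finset.mem_filter, Finset.mem_Icc] at hp
    obtain ⟨⟨hp1, hp2⟩, hpp, hpx, hpc⟩ := hp
    have hp3 : (p : ℝ) ≤ x / r d := (Nat.le_floor_iff' (Nat.one_le_iff_ne_zero.1 hp1)).1 hp2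
    have hr0' : (0 : ℝ) < r d := by exact_mod_cast hr0
    rw [le_div_iff₀ hr0'] at hp3
    rw [Finset.mem_coe, Finset.mem_filter, Finset.mem_Icc]
    refine ⟨⟨Nat.mul_pos hp1 hr0, ?_⟩, ?_⟩
    · apply Nat.le_floor
      push_cast
      exact hp3
    · apply hG d hPd p hpp _ _ hpc
      · exact_mod_cast hN.trans_lt hpx
      · have h1 : (r d : ℝ) < p := by linarith
        exact_mod_cast h1
  · rintro ⟨d, p⟩ hs ⟨d', p'⟩ hs' he
    rw [Finset.mem_coe, Finset.mem_sigma] at hs hs'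
    obtain ⟨hd, hp⟩ := hs
    obtain ⟨hPd, hr0, hrx⟩ := hS d hd
    obtain ⟨hd', hp'⟩ := hs'
    obtain ⟨hPd', hr0', hrx'⟩ := hS d' hd'
    rw [Finset.mem_filter, Finset.mem_Icc] at hp hp'
    obtain ⟨⟨hp1, hp2⟩, hpp, hpx, hpc⟩ := hp
    obtain ⟨⟨hp1', hp2'⟩, hpp', hpx', hpc'⟩ := hp'
    have he' : p * r d = p' * r d' := he
    have h1 : p ∣ p' * r d' := ⟨r d, he'.symm⟩
    have h2 : p = p' := by
      rcases (Nat.Prime.dvd_mul hpp).1 h1 with h | h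
      · exact (Nat.prime_dvd_prime_iff_eq hpp hpp').1 h
      · exfalso
        have h3 := Nat.le_of_dvd hr0' h
        have h4 : (p : ℝ) ≤ r d' := by exact_mod_cast h3
        have hpx2 : √x < p := hpx
        linarith
    subst h2
    have h3 : r d = r d' := Nat.eq_of_mul_eq_mul_left hpp.pos he'
    have h4 := hr hPd hPd' h3
    subst h4
    rfl

theorem As_term {c₁ K x e d : ℝ} (hc₁ : 0 < c₁) (hK : 0 < K) (hx : 4 ≤ x) (he : 0 < e) (hd : 0 < d)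
    (heK : e ≤ K * d) (hex : e ≤ √x / 2) (he1 : 1 ≤ e) :
    c₁ * x / (K * Real.log x) * (1 / d) ≤ c₁ * (x / e) / Real.log (x / e) := by
  have hx0 : 0 < x := by linarith
  have hs : 0 < √x := Real.sqrt_pos.2 hx0
  have hs2 : √x * √x = x := Real.mul_self_sqrt hx0.le
  have hs1 : 2 ≤ √x := Real.le_sqrt_of_sq_le (by linarith)
  have hz : 0 < x / e := div_pos hx0 he
  have hz1 : 1 < x / e := by
    rw [lt_div_iff₀ he]
    nlinarith
  have hlz : 0 < Real.log (x / e) := Real.log_pos hz1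
  have hlx : Real.log (x / e) ≤ Real.log x := by
    apply Real.log_le_log hz
    exact div_le_self hx0.le he1
  have hlx0 : 0 < Real.log x := lt_of_lt_of_le hlz hlx
  have h1 : c₁ * (x / e) / Real.log x ≤ c₁ * (x / e) / Real.log (x / e) :=
    div_le_div_of_nonneg_left (mul_pos hc₁ hz).le hlz hlx
  refine le_trans ?_ h1
  have h2 : x / (K * d) ≤ x / e := div_le_div_of_nonneg_left hx0.le he heK
  have h3 : c₁ * x / (K * Real.log x) * (1 / d) = c₁ * (x / (K * d)) / Real.log x := by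
    field_simp
  rw [h3]
  exact div_le_div_of_nonneg_right (mul_le_mul_of_nonneg_left h2 hc₁.le) hlx0.le

theorem As {m : ℕ} {P G : ℕ → Prop} {κ c₁ c₂ X Y : ℝ} (hκ : 0 < κ) (hc₁ : 0 < c₁) (hc₂ : 0 < c₂)
    (hp : ∀ a : ZMod m, IsUnit a → ∀ y z : ℝ, X ≤ y → 2 * y ≤ z → c₁ * z / Real.log z ≤
      (((Finset.Icc 1 ⌊z⌋₊).filter fun p : ℕ => p.Prime ∧ y < p ∧ (p : ZMod m) = a).card : ℝ))
    (hP : ∀ y : ℝ, Y ≤ y →
      c₂ * (Real.log y) ^ κ ≤ ∑ d ∈ (Finset.Icc 1 ⌊y⌋₊).filter P, (1 : ℝ) / d)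
    {K N : ℕ} (hK : 0 < K) (r : ℕ → ℕ) (cl : ℕ → ZMod m) (hr : Set.InjOn r {d | P d})
    (h0 : ∀ d, P d → 0 < d → 0 < r d ∧ r d ≤ K * d) (hcl : ∀ d, P d → IsUnit (cl d))
    (hG : ∀ d, P d → ∀ p : ℕ, p.Prime → N < p → r d < p → (p : ZMod m) = cl d → G (p * r d)) :
    ∃ c : ℝ, 0 < c ∧ ∃ X₀ : ℝ, ∀ x : ℝ, X₀ ≤ x →
      c * x * (Real.log x) ^ (κ - 1) ≤ (((Finset.Icc 1 ⌊x⌋₊).filter G).card : ℝ) := by
  have hK' : (0 : ℝ) < K := by exact_mod_cast hK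
  refine ⟨c₁ * c₂ / K * (1 / 4 : ℝ) ^ κ, by positivity, ?_⟩
  rw [← Filter.eventually_atTop (p := fun x : ℝ => c₁ * c₂ / K * (1 / 4 : ℝ) ^ κ * x *
    (Real.log x) ^ (κ - 1) ≤ (((Finset.Icc 1 ⌊x⌋₊).filter G).card : ℝ))]
  have hsq : Filter.Tendsto (fun x : ℝ => √x) Filter.atTop Filter.atTop := Real.tendsto_sqrt_atTop
  have hsw : Filter.Tendsto (fun x : ℝ => √x / (2 * K)) Filter.atTop Filter.atTop :=
    hsq.atTop_div_const (by positivity)
  filter_upwards [hsq.eventually_ge_atTop X, hsq.eventually_ge_atTop (N : ℝ), hsw.eventually_ge_atTop Y,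
    Filter.eventually_ge_atTop (4 : ℝ), Filter.eventually_ge_atTop ((2 * K : ℝ) ^ 4)] with x hX hN hY h4 hK4
  obtain ⟨w, hw⟩ : ∃ w : ℝ, w = √x / (2 * K) := ⟨_, rfl⟩
  rw [← hw] at hY
  have hx0 : 0 < x := by linarith
  have hs : 0 < √x := Real.sqrt_pos.2 hx0
  have hs2 : √x * √x = x := Real.mul_self_sqrt hx0.le
  have hlx : 0 < Real.log x := Real.log_pos (by linarith)
  have hw2 : K * w ≤ √x / 2 := by
    rw [hw]
    apply le_of_eq
    field_simp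
  have hcard := As_card (m := m) (G := G) r cl hr h0 hG h4 hN hw2
  have hcard' : (((∑ d ∈ (Finset.Icc 1 ⌊w⌋₊).filter P, (((Finset.Icc 1 ⌊x / r d⌋₊).filter
      fun p : ℕ => p.Prime ∧ √x < p ∧ (p : ZMod m) = cl d).card) : ℕ)) : ℝ) ≤
      (((Finset.Icc 1 ⌊x⌋₊).filter G).card : ℝ) := by exact_mod_cast hcard
  refine le_trans ?_ hcard'
  rw [Nat.cast_sum]
  have hterm : ∀ d ∈ (Finset.Icc 1 ⌊w⌋₊).filter P, c₁ * x / (K * Real.log x) * (1 / (d : ℝ)) ≤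
      ((((Finset.Icc 1 ⌊x / r d⌋₊).filter
      fun p : ℕ => p.Prime ∧ √x < p ∧ (p : ZMod m) = cl d).card : ℕ) : ℝ) := by
    intro d hd
    rw [Finset.mem_filter, Finset.mem_Icc] at hd
    obtain ⟨⟨hd1, hd2⟩, hPd⟩ := hd
    obtain ⟨h1, h2⟩ := h0 d hPd hd1
    have h3 : (d : ℝ) ≤ w := (Nat.le_floor_iff' (by omega)).1 hd2
    have h4' : ((r d : ℕ) : ℝ) ≤ (K : ℝ) * d := by exact_mod_cast h2
    have h5 := mul_le_mul_of_nonneg_left h3 hK'.le
    have he0 : (0 : ℝ) < r d := by exact_mod_cast h1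
    have he1 : (1 : ℝ) ≤ r d := by exact_mod_cast h1
    have hd0 : (0 : ℝ) < d := by exact_mod_cast hd1
    have hex : (r d : ℝ) ≤ √x / 2 := by linarith
    refine (As_term hc₁ hK' h4 he0 hd0 h4' hex he1).trans ?_
    apply hp (cl d) (hcl d hPd) (√x) (x / r d) hX
    rw [le_div_iff₀ he0]
    nlinarith
  refine le_trans ?_ (Finset.sum_le_sum hterm)
  rw [← Finset.mul_sum]
  have hc0 : 0 ≤ c₁ * x / (K * Real.log x) := by positivity
  refine le_trans ?_ (mul_le_mul_of_nonneg_left (hP w hY) hc0)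
  have hlw : 1 / 4 * Real.log x ≤ Real.log w := by
    rw [hw, Real.log_div hs.ne' (by positivity), Real.log_sqrt hx0.le]
    have h1 : Real.log ((2 * K : ℝ) ^ 4) ≤ Real.log x := Real.log_le_log (by positivity) hK4
    rw [Real.log_pow] at h1
    push_cast at h1
    linarith
  have hpow : (1 / 4 : ℝ) ^ κ * (Real.log x) ^ κ ≤ (Real.log w) ^ κ := by
    rw [← Real.mul_rpow (by norm_num) hlx.le]
    exact Real.rpow_le_rpow (by positivity) hlw hκ.le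
  calc c₁ * c₂ / K * (1 / 4 : ℝ) ^ κ * x * (Real.log x) ^ (κ - 1)
      = c₁ * x / (K * Real.log x) * (c₂ * ((1 / 4 : ℝ) ^ κ * (Real.log x) ^ κ)) := by
        rw [Real.rpow_sub_one hlx.ne']
        field_simp
    _ ≤ c₁ * x / (K * Real.log x) * (c₂ * (Real.log w) ^ κ) :=
        mul_le_mul_of_nonneg_left (mul_le_mul_of_nonneg_left hpow hc₂.le) hc0

end H14CT
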