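import Pool.Agent.H14.CT.Jc

/-!
ROW Cl (project MP_78d38b_T1, Mathlib and the statement of Jc, about 170 lines). Choice of the class of
the last prime factor.

PROOF. The prime factors of `e` do not divide `2 b D` (`Neu`), so `e` is odd and prime to `b` and `D`.
For `q ∈ T` choose a natural number `ρ q` prime to `q` such that: if `q ∤ e` then `ρ q = e` modulo `q`,
and in all cases, if `q ∈ S`, then `¬ q ^ 2 ∣ (ρ q) ^ (q - 1) - 1`. (If `q ∤ e`: one of `e`, `e + q`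
works, because `(e + q) ^ (q - 1) = e ^ (q - 1) + (q - 1) e ^ (q - 2) q` modulo `q ^ 2`, so the two
powers differ modulo `q ^ 2`, `q ∤ (q - 1) e`. If `q ∣ e`: take `1 + q`, as `(1 + q) ^ (q - 1) = 1 +
(q - 1) q ≠ 1` modulo `q ^ 2`.) By the Chinese remainder theorem (`Nat.chineseRemainderOfFinset` over
`insert 2 T` with the moduli `8` for `2` and `q ^ 2` for `q ∈ T`, see the private theorem `Ng_class` in
Pool/Agent/H93/T1/Ng.lean for the pattern) there is `ρ` with `ρ = e` modulo `8` and `ρ = ρ q` modulo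
`q ^ 2` for `q ∈ T`; it is prime to `md T`. Let `c = ρ` in `ZMod (md T)`. Let `p` be a prime with
`(p : ZMod (md T)) = c`, that is `p = ρ` modulo `md T`. Then:
* `p % 8 = e % 8` is odd, so `p * e = e ^ 2 = 1` modulo `8`;
* for `q ∈ T`, `q ∤ e`: `p = e` modulo `q`, so `p * e = e ^ 2` modulo `q`: `Sqm` with `t = e`;
* for `q ∈ S`: `p ^ (q - 1) = (ρ q) ^ (q - 1)` modulo `q ^ 2` (`Nat.ModEq.pow`; both at least one);
* `p` is neutral: `p` is odd and not in `T` (prime to `md T`), so `p ∤ 2 b D` by `hQ`. Let `T' ⊆ T` be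
  the set of the odd primes dividing `b D` (`T.filter`); for `q ∈ T'` we have `q ∤ e`, so
  `p = e` modulo `8 ∏ q ∈ T', q` (coprime moduli: `Nat.modEq_and_modEq_iff_modEq_mul`,
  `Nat.ModEq` over a product of pairwise coprime numbers; for instance in the form of divisibility
  of the integer `p - e` by a product of coprime factors, `Finset.prod_dvd_of_coprime`). By `Jc` with
  `T'` (for `x = b` and `x = D`): `J(b | p) = J(b | e)`. And `J(b | e) = ∏ l ∈ e.primeFactors, J(b | l)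
  = (-1) ^ card = -1` as `e` is squarefree (`Nat.prod_primeFactors_of_squarefree`, `jacobiSym` of a
  product: `jacobiSym.mul_right`/`prod_right` by induction over the finite set) and by
  `not_sqm_iff`. So `b` is not a square modulo `p` by `not_sqm_iff`; the same for `D`.
-/

set_option autoImplicit false
open scoped Classical

open NumberTheorySymbols

namespace H14CT

private theorem Cl_res {q a : ℕ} (hq : q.Prime) (ha : ¬ q ∣ a) :
    ∃ r : ℕ, r ≡ a [MOD q] ∧ ¬ q ^ 2 ∣ r ^ (q - 1) - 1 := by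
  have key : ∀ r : ℕ, r ≠ 0 → (q ^ 2 ∣ r ^ (q - 1) - 1 ↔ ((q : ℤ) ^ 2 ∣ (r : ℤ) ^ (q - 1) - 1)) := by
    intro r hr
    have h1 : 1 ≤ r ^ (q - 1) := Nat.one_le_pow _ _ (Nat.pos_of_ne_zero hr)
    rw [← Int.natCast_dvd_natCast, Nat.cast_sub h1]
    push_cast
    rfl
  by_cases h : q ^ 2 ∣ a ^ (q - 1) - 1
  · refine ⟨a + q, by simp [Nat.ModEq], fun h' => ?_⟩
    have ha0 : a ≠ 0 := fun h0 => ha (h0 ▸ dvd_zero q)
    rw [key _ ha0] at h
    rw [key _ (by omega)] at h'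
    obtain ⟨k, hk⟩ := Polynomial.powAddExpansion (a : ℤ) (q : ℤ) (q - 1)
    push_cast at h'
    rw [hk] at h'
    have h1 : (q : ℤ) ^ 2 ∣ ((q - 1 : ℕ) : ℤ) * (a : ℤ) ^ (q - 1 - 1) * (q : ℤ) := by
      have h2 := dvd_sub h' h
      have h3 : (q : ℤ) ^ 2 ∣ k * (q : ℤ) ^ 2 := dvd_mul_left _ _
      have h4 := dvd_sub h2 h3
      have h5 : (a : ℤ) ^ (q - 1) + ((q - 1 : ℕ) : ℤ) * (a : ℤ) ^ (q - 1 - 1) * (q : ℤ) + k * (q : ℤ) ^ 2 - 1 -
          ((a : ℤ) ^ (q - 1) - 1) - k * (q : ℤ) ^ 2 = ((q - 1 : ℕ) : ℤ) * (a : ℤ) ^ (q - 1 - 1) * (q : ℤ) := by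
        ring
      rwa [h5] at h4
    have hq0 : (q : ℤ) ≠ 0 := by exact_mod_cast hq.ne_zero
    have h2 : (q : ℤ) ∣ ((q - 1 : ℕ) : ℤ) * (a : ℤ) ^ (q - 1 - 1) := by
      rw [sq] at h1
      exact (mul_dvd_mul_iff_right hq0).1 h1
    have hqp : Prime (q : ℤ) := Nat.prime_iff_prime_int.1 hq
    rcases hqp.dvd_or_dvd h2 with h3 | h3
    · have h4 : q ∣ q - 1 := by exact_mod_cast h3
      have h5 := Nat.le_of_dvd (by have := hq.two_le; omega) h4
      have := hq.two_le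
      omega
    · have h4 := hqp.dvd_of_dvd_pow h3
      exact ha (by exact_mod_cast h4)
  · exact ⟨a, rfl, h⟩

private theorem Cl_res' {q a : ℕ} (lv : ℕ) (hq : q.Prime) (ha : ¬ q ∣ a) :
    ∃ r : ℕ, r ≡ a [MOD q] ∧ ¬ q ^ (lv + 2) ∣ r ^ (q - 1) - 1 := by
  obtain ⟨r, h1, h2⟩ := Cl_res hq ha
  exact ⟨r, h1, fun h => h2 ((pow_dvd_pow q (by omega)).trans h)⟩

private theorem Cl_crt (lv : ℕ) {T : Finset ℕ} (hT : ∀ q ∈ T, q.Prime ∧ q ≠ 2) (e : ℕ) (r : ℕ → ℕ) :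
    ∃ ρ : ℕ, ρ ≡ e [MOD 8] ∧ ∀ q ∈ T, ρ ≡ r q [MOD q ^ (lv + 2)] := by
  have pp : Set.Pairwise (↑T : Set ℕ) (Function.onFun Nat.Coprime (fun q => q ^ (lv + 2))) := by
    intro i hi j hj hij
    exact Nat.Coprime.pow _ _ ((Nat.coprime_primes (hT i hi).1 (hT j hj).1).2 hij)
  obtain ⟨k, hk⟩ := Nat.chineseRemainderOfFinset r (fun q => q ^ (lv + 2)) T
    (fun q hq => pow_ne_zero _ (hT q hq).1.ne_zero) pp
  have hco : Nat.Coprime 8 (∏ q ∈ T, q ^ (lv + 2)) := by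
    refine Nat.Coprime.prod_right fun q hq => ?_
    have h3 : Nat.Coprime 2 q := (Nat.coprime_primes Nat.prime_two (hT q hq).1).2 (Ne.symm (hT q hq).2)
    exact Nat.Coprime.pow 3 _ h3
  obtain ⟨ρ, h1, h2⟩ := Nat.chineseRemainder hco e k
  refine ⟨ρ, h1, fun q hq => ?_⟩
  exact (h2.of_dvd (Finset.dvd_prod_of_mem (fun q => q ^ (lv + 2)) hq)).trans (hk q hq)

private theorem Cl_prod {x : ℤ} (s : Finset ℕ) (hs : ∀ l ∈ s, l.Prime ∧ J(x | l) = -1) :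
    J(x | ∏ l ∈ s, l) = (-1) ^ s.card := by
  induction s using Finset.induction_on with
  | empty => simp
  | insert a s ha ih =>
    have h1 : a ≠ 0 := (hs a (Finset.mem_insert_self _ _)).1.ne_zero
    have h2 : ∏ l ∈ s, l ≠ 0 := Finset.prod_ne_zero_iff.2 fun l hl =>
      (hs l (Finset.mem_insert_of_mem hl)).1.ne_zero
    haveI : NeZero a := ⟨h1⟩
    haveI : NeZero (∏ l ∈ s, l) := ⟨h2⟩
    rw [Finset.prod_insert ha, jacobiSym.mul_right, ih fun l hl => hs l (Finset.mem_insert_of_mem hl),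
      (hs a (Finset.mem_insert_self _ _)).2, Finset.card_insert_of_notMem ha]
    ring

private theorem Cl_sq {x : ℤ} (hx : x ≠ 0) {T : Finset ℕ} (hT : ∀ q ∈ T, q.Prime ∧ q ≠ 2)
    (hQ : ∀ q : ℕ, q.Prime → q ≠ 2 → (q : ℤ) ∣ x → q ∈ T) {e : ℕ} (hsq : Squarefree e) (heo : Odd e)
    (he : ∀ l : ℕ, l.Prime → l ∣ e → ¬ (l : ℤ) ∣ x ∧ ¬ Sqm l x) (ho : Odd e.primeFactors.card) {p : ℕ}
    (hp : p.Prime) (hpo : Odd p) (hpx : ¬ (p : ℤ) ∣ x) (h8 : p ≡ e [MOD 8])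
    (hpe : ∀ q ∈ T, ¬ q ∣ e → p ≡ e [MOD q]) : ¬ Sqm p x := by
  have hcop : ∀ n : ℕ, (∀ l : ℕ, l.Prime → l ∣ n → ¬ (l : ℤ) ∣ x) → IsCoprime x n := by
    intro n hn
    rw [Int.isCoprime_iff_gcd_eq_one]
    refine Nat.coprime_of_dvd fun k hk h1 h2 => ?_
    rw [Int.natAbs_natCast] at h2
    exact hn k hk h2 (Int.natCast_dvd.2 h1)
  have hT2 : ∀ q ∈ T.filter (fun q : ℕ => (q : ℤ) ∣ x), q.Prime ∧ q ≠ 2 := fun q hq =>
    hT q (Finset.mem_filter.1 hq).1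
  have hmod : p ≡ e [MOD 8 * ∏ q ∈ T.filter (fun q : ℕ => (q : ℤ) ∣ x), q] := by
    refine (Nat.modEq_and_modEq_iff_modEq_mul ?_).1 ⟨h8, ?_⟩
    · refine Nat.Coprime.prod_right fun q hq => ?_
      have h3 : Nat.Coprime 2 q := (Nat.coprime_primes Nat.prime_two (hT2 q hq).1).2 (Ne.symm (hT2 q hq).2)
      exact Nat.Coprime.pow_left 3 h3
    · rw [Nat.modEq_iff_dvd]
      push_cast
      refine Finset.prod_dvd_of_coprime ?_ ?_
      · intro i hi j hj hij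
        have h1 : Nat.Coprime i j := (Nat.coprime_primes (hT2 i hi).1 (hT2 j hj).1).2 hij
        exact Nat.isCoprime_iff_coprime.2 h1
      · intro q hq
        have h1 : ¬ q ∣ e := fun h => (he q (hT2 q hq).1 h).1 (Finset.mem_filter.1 hq).2
        exact (Nat.modEq_iff_dvd).1 (hpe q (Finset.mem_filter.1 hq).1 h1)
  have hJ : J(x | p) = J(x | e) := by
    refine Jc hx hT2 ?_ hpo heo (hcop p ?_) (hcop e fun l hl hle => (he l hl hle).1) hmod
    · intro q hq hq2 hqx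
      exact Finset.mem_filter.2 ⟨hQ q hq hq2 hqx, hqx⟩
    · intro l hl hlp
      rw [(Nat.prime_dvd_prime_iff_eq hl hp).1 hlp]
      exact hpx
  rw [not_sqm_iff hp hpx, hJ]
  have h1 := Cl_prod (x := x) e.primeFactors fun l hl => by
    have hl1 := Nat.prime_of_mem_primeFactors hl
    have hl2 := Nat.dvd_of_mem_primeFactors hl
    exact ⟨hl1, (not_sqm_iff hl1 (he l hl1 hl2).1).1 (he l hl1 hl2).2⟩
  rw [Nat.prod_primeFactors_of_squarefree hsq, ho.neg_one_pow] at h1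
  exact h1

theorem Cl {b D : ℤ} (hb : b ≠ 0) (hD : D ≠ 0) {lv : ℕ} {T S : Finset ℕ} (hT : ∀ q ∈ T, q.Prime ∧ q ≠ 2)
    (hQ : ∀ q : ℕ, q.Prime → q ≠ 2 → (q : ℤ) ∣ b * D → q ∈ T) (hS : S ⊆ T) {e : ℕ}
    (he : SF (Neu b D) e) (ho : Odd e.primeFactors.card) :
    ∃ c : ZMod (md lv T), IsUnit c ∧ ∀ p : ℕ, p.Prime → (p : ZMod (md lv T)) = c →
      Neu b D p ∧ (∀ q ∈ S, ¬ q ^ (lv + 2) ∣ p ^ (q - 1) - 1) ∧ (p * e) % 8 = 1 ∧
        ∀ q ∈ T, ¬ q ∣ e → Sqm q ((p * e : ℕ) : ℤ) := by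
  have he2 : ∀ l : ℕ, l.Prime → l ∣ e → ¬ (l : ℤ) ∣ 2 * (b * D) := fun l hl hle => (he.2 l hl hle).1
  have heo : Odd e := by
    rw [← Nat.not_even_iff_odd, even_iff_two_dvd]
    intro h
    exact he2 2 Nat.prime_two h (dvd_mul_right _ _)
  have hr : ∀ q : ℕ, ∃ r : ℕ, q ∈ T → (¬ q ∣ r ∧ (¬ q ∣ e → r ≡ e [MOD q]) ∧ ¬ q ^ (lv + 2) ∣ r ^ (q - 1) - 1) := by
    intro q
    by_cases hq : q ∈ T
    · have hqp := (hT q hq).1
      have hmod : ∀ {r a : ℕ}, r ≡ a [MOD q] → ¬ q ∣ a → ¬ q ∣ r := by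
        intro r a h1 h2 h3
        exact h2 ((h1.dvd_iff (dvd_refl q)).1 h3)
      by_cases hqe : q ∣ e
      · have h1 : ¬ q ∣ 1 := fun h => hqp.one_lt.ne' (Nat.dvd_one.1 h)
        obtain ⟨r, hr1, hr2⟩ := Cl_res' lv hqp h1
        exact ⟨r, fun _ => ⟨hmod hr1 h1, fun h => absurd hqe h, hr2⟩⟩
      · obtain ⟨r, hr1, hr2⟩ := Cl_res' lv hqp hqe
        exact ⟨r, fun _ => ⟨hmod hr1 hqe, fun _ => hr1, hr2⟩⟩
    · exact ⟨0, fun h => absurd h hq⟩
  choose r hr using hr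
  obtain ⟨ρ, hρ8, hρ⟩ := Cl_crt lv hT e r
  have hρo : Odd ρ := by
    rw [Nat.odd_iff] at heo ⊢
    have h1 : ρ % 8 = e % 8 := hρ8
    omega
  refine ⟨(ρ : ZMod (md lv T)), ?_, ?_⟩
  · rw [ZMod.isUnit_iff_coprime]
    unfold md
    refine Nat.Coprime.mul_right ?_ (Nat.Coprime.prod_right fun q hq => ?_)
    · exact Nat.Coprime.pow_right 3 (Nat.coprime_two_right.2 hρo)
    · refine Nat.Coprime.pow_right _ ?_
      refine Nat.Coprime.symm (((hT q hq).1.coprime_iff_not_dvd).2 fun h => (hr q hq).1 ?_)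
      exact (((hρ q hq).of_dvd (dvd_pow_self q (by omega))).dvd_iff (dvd_refl q)).1 h
  · intro p hp hpc
    have hmd : p ≡ ρ [MOD md lv T] := (ZMod.natCast_eq_natCast_iff _ _ _).1 hpc
    have h8 : p ≡ e [MOD 8] := (hmd.of_dvd (Dvd.intro _ rfl)).trans hρ8
    have hq2 : ∀ q ∈ T, p ≡ r q [MOD q ^ (lv + 2)] := by
      intro q hq
      have h1 : q ^ (lv + 2) ∣ md lv T := by
        unfold md
        exact (Finset.dvd_prod_of_mem (fun q => q ^ (lv + 2)) hq).mul_left 8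
      exact (hmd.of_dvd h1).trans (hρ q hq)
    have hq1 : ∀ q ∈ T, p ≡ r q [MOD q] := fun q hq => (hq2 q hq).of_dvd (dvd_pow_self q (by omega))
    have hpo : Odd p := by
      rw [Nat.odd_iff] at heo ⊢
      have h1 : p % 8 = e % 8 := h8
      omega
    have hp2 : p ≠ 2 := by
      rintro rfl
      exact absurd hpo (by decide)
    have hpT : p ∉ T := fun h => (hr p h).1 (((hq1 p h).dvd_iff (dvd_refl p)).1 (dvd_refl p))
    have hpi : Prime (p : ℤ) := Nat.prime_iff_prime_int.1 hp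
    have hpbD : ¬ (p : ℤ) ∣ b * D := fun h => hpT (hQ p hp hp2 h)
    have hpe : ∀ q ∈ T, ¬ q ∣ e → p ≡ e [MOD q] := fun q hq hqe =>
      (hq1 q hq).trans ((hr q hq).2.1 hqe)
    refine ⟨⟨?_, ?_, ?_⟩, ?_, ?_, ?_⟩
    · intro h
      rcases hpi.dvd_or_dvd h with h' | h'
      · have h1 : p ∣ 2 := by exact_mod_cast h'
        exact hp2 ((Nat.prime_dvd_prime_iff_eq hp Nat.prime_two).1 h1)
      · exact hpbD h'
    · refine Cl_sq hb hT (fun q h1 h2 h3 => hQ q h1 h2 (h3.mul_right D)) he.1 heo (fun l hl hle => ?_) ho hp hpo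
        (fun h => hpbD (h.mul_right D)) h8 hpe
      exact ⟨fun h => he2 l hl hle ((h.mul_right D).mul_left 2), (he.2 l hl hle).2.1⟩
    · refine Cl_sq hD hT (fun q h1 h2 h3 => hQ q h1 h2 (h3.mul_left b)) he.1 heo (fun l hl hle => ?_) ho hp hpo
        (fun h => hpbD (h.mul_left b)) h8 hpe
      exact ⟨fun h => he2 l hl hle ((h.mul_left b).mul_left 2), (he.2 l hl hle).2.2⟩
    · intro q hqS h
      have hq := hS hqS
      refine (hr q hq).2.2 ?_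
      have h1 : 1 ≤ p ^ (q - 1) := Nat.one_le_pow _ _ hp.pos
      have hr0 : r q ≠ 0 := fun h0 => (hr q hq).1 (h0 ▸ dvd_zero q)
      have h2 : 1 ≤ r q ^ (q - 1) := Nat.one_le_pow _ _ (Nat.pos_of_ne_zero hr0)
      rw [← Nat.modEq_iff_dvd' h1] at h
      rw [← Nat.modEq_iff_dvd' h2]
      exact h.trans ((hq2 q hq).pow (q - 1))
    · have h1 : p % 8 = e % 8 := h8
      rw [Nat.odd_iff] at heo
      have h2 : e % 8 = 1 ∨ e % 8 = 3 ∨ e % 8 = 5 ∨ e % 8 = 7 := by omega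
      rw [Nat.mul_mod, h1]
      rcases h2 with h2 | h2 | h2 | h2 <;> rw [h2]
    · intro q hq hqe
      refine ⟨e, ?_⟩
      have h1 := (Nat.modEq_iff_dvd).1 (hpe q hq hqe)
      push_cast
      have h2 : (p : ℤ) * e - (e : ℤ) ^ 2 = -((e : ℤ) - p) * e := by ring
      rw [h2]
      exact (h1.neg_right).mul_right _

end H14CT
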