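import Mathlib

/-!
Definitions for the counting theorem (project MP_78d38b_T1): squarefree numbers with prime factors
in a set, Dirichlet series of a set, neutral primes. No row.
-/

set_option autoImplicit false
open scoped Classical

open NumberTheorySymbols

namespace H14CT

/-- Squarefree natural numbers all of whose prime factors satisfy `Q`. -/
def SF (Q : ℕ → Prop) (d : ℕ) : Prop := Squarefree d ∧ ∀ p : ℕ, p.Prime → p ∣ d → Q p

/-- The Dirichlet series of the set `P` at a real point. -/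
noncomputable def ds (P : ℕ → Prop) (s : ℝ) : ℝ := ∑' n : ℕ, if P n then (n : ℝ) ^ (-s) else 0

/-- The modulus attached to a set of primes. -/
def md (k : ℕ) (T : Finset ℕ) : ℕ := 8 * ∏ q ∈ T, q ^ (k + 2)

/-- `x` is a square modulo `q`. -/
def Sqm (q : ℕ) (x : ℤ) : Prop := ∃ t : ℤ, (q : ℤ) ∣ x - t ^ 2

/-- Neutral primes: `b` and `D` are not squares modulo `l`, and `l` is prime to `2 b D`. -/
def Neu (b D : ℤ) (l : ℕ) : Prop := ¬ (l : ℤ) ∣ 2 * (b * D) ∧ ¬ Sqm l b ∧ ¬ Sqm l D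

lemma sqm_iff_sq {l : ℕ} {x : ℤ} : Sqm l x ↔ IsSquare (x : ZMod l) := by
  constructor
  · rintro ⟨t, ht⟩
    have h := (ZMod.intCast_zmod_eq_zero_iff_dvd _ l).2 ht
    push_cast at h
    exact ⟨(t : ZMod l), by rw [sub_eq_zero.1 h, sq]⟩
  · rintro ⟨r, hr⟩
    obtain ⟨t, rfl⟩ := ZMod.intCast_surjective r
    refine ⟨t, (ZMod.intCast_zmod_eq_zero_iff_dvd _ l).1 ?_⟩
    push_cast
    rw [hr]
    ring

lemma sqm_iff {l : ℕ} (hl : l.Prime) {x : ℤ} (hx : ¬ (l : ℤ) ∣ x) : Sqm l x ↔ J(x | l) = 1 := by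
  haveI : Fact l.Prime := ⟨hl⟩
  have h0 : (x : ZMod l) ≠ 0 := fun h => hx ((ZMod.intCast_zmod_eq_zero_iff_dvd _ l).1 h)
  rw [sqm_iff_sq, ← jacobiSym.legendreSym.to_jacobiSym, legendreSym.eq_one_iff l h0]

lemma not_sqm_iff {l : ℕ} (hl : l.Prime) {x : ℤ} (hx : ¬ (l : ℤ) ∣ x) :
    ¬ Sqm l x ↔ J(x | l) = -1 := by
  haveI : Fact l.Prime := ⟨hl⟩
  rw [sqm_iff_sq, ← jacobiSym.legendreSym.to_jacobiSym, legendreSym.eq_neg_one_iff l]

lemma md_dvd (k : ℕ) (T : Finset ℕ) : 8 * ∏ q ∈ T, q ∣ md k T := by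
  unfold md
  exact Nat.mul_dvd_mul_left _
    (Finset.prod_dvd_prod_of_dvd _ _ fun q _ => dvd_pow_self q (by omega))

lemma md_ne (k : ℕ) {T : Finset ℕ} (hT : ∀ q ∈ T, q.Prime ∧ q ≠ 2) : md k T ≠ 0 := by
  unfold md
  exact mul_ne_zero (by norm_num)
    (Finset.prod_ne_zero_iff.2 fun q hq => pow_ne_zero _ (hT q hq).1.ne_zero)

end H14CT
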