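import Pool.Agent.H14.CT.Df

/-!
ROW Eu (project MP_78d38b_T1, Mathlib only, about 120 lines). The Euler product of the squarefree
numbers with prime factors in a set.

PROOF. `f d = if SF Q d then (d : ℝ) ^ (-s) else 0` is summable (comparison with `∑ n ^ (-s)`,
`Real.summable_nat_rpow`), `f 0 = 0` (zero is not squarefree), `f 1 = 1`, and `f` is multiplicative
on coprime arguments (`Nat.squarefree_mul`, `Nat.Prime.dvd_mul`, `Real.mul_rpow`). By
`EulerProduct.eulerProduct_hasProd` the product over the primes of `∑' e, f (p ^ e)` is `∑' n, f n`;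
and `∑' e, f (p ^ e) = 1 + x p` where `x p = if Q p then p ^ (-s) else 0` (`f (p ^ e) = 0` for `e ≥ 2`
as `p ^ e` is not squarefree; `tsum_eq_sum` with `Finset.range 2`).
For `0 ≤ x ≤ 1`: `exp (x - x ^ 2) ≤ 1 + x ≤ exp x` (`Real.add_one_le_exp`; the lower bound: `x - x ^ 2 ≤
log (1 + x)`, for instance from `Real.le_log_one_add_of_nonneg : 2 x / (x + 2) ≤ log (1 + x)`, since
`(x - x ^ 2) (x + 2) ≤ 2 x` for `x ≥ 0`).
Comparing partial products over finite sets of primes and passing to the limit (`HasProd`,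
`Real.exp_sum`, `le_of_tendsto_of_tendsto'`, or `HasSum` of the logarithms), with
`∑ x p = ds (fun p => p.Prime ∧ Q p) s` (sum over the subtype of primes against the sum over all `n`)
and `∑ (x p) ^ 2 ≤ ∑_{p prime} p ^ (-2) ≤ 1` (for instance `∑_{n ≥ 2} n ^ (-2) ≤ 1`; `x p ≤ p⁻¹`; one
may use `∑_{2 ≤ n ≤ N} 1 / n ^ 2 ≤ ∑ (1 / (n - 1) - 1 / n) ≤ 1`, or `hasSum_zeta_two` and
`Real.pi_lt_d2`).
-/

set_option autoImplicit false
open scoped Classical

namespace H14CT

theorem Eu_log {x : ℝ} (hx : 0 ≤ x) : Real.exp (x - x ^ 2) ≤ 1 + x := by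
  have h1 := Real.le_log_one_add_of_nonneg hx
  have h2 : x - x ^ 2 ≤ 2 * x / (x + 2) := by
    rw [le_div_iff₀ (by linarith)]
    nlinarith [mul_nonneg hx hx, mul_nonneg (mul_nonneg hx hx) hx]
  calc Real.exp (x - x ^ 2) ≤ Real.exp (Real.log (1 + x)) := Real.exp_le_exp.2 (h2.trans h1)
    _ = 1 + x := Real.exp_log (by linarith)

theorem Eu_sq (F : Finset Nat.Primes) : ∑ p ∈ F, (1 / ((p : ℕ) : ℝ) ^ 2) ≤ 1 := by
  have h1 : ∑ n ∈ insert 1 (F.map ⟨(fun p : Nat.Primes => (p : ℕ)), Subtype.val_injective⟩),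
      (1 / ((n : ℕ) : ℝ) ^ 2) ≤ Real.pi ^ 2 / 6 :=
    sum_le_hasSum _ (fun n _ => by positivity) hasSum_zeta_two
  rw [Finset.sum_insert, Finset.sum_map] at h1
  · have h2 : (1 : ℝ) / ((1 : ℕ) : ℝ) ^ 2 = 1 := by norm_num
    rw [h2] at h1
    have h3 := Real.pi_lt_d2
    have h4 := Real.pi_pos
    have h5 : Real.pi ^ 2 / 6 ≤ 2 := by nlinarith
    have h6 : ∑ p ∈ F, (1 / ((p : ℕ) : ℝ) ^ 2) =
      ∑ x ∈ F, 1 / (((⟨(fun p : Nat.Primes => (p : ℕ)), Subtype.val_injective⟩ :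
        Nat.Primes ↪ ℕ) x : ℕ) : ℝ) ^ 2 := rfl
    rw [h6]
    linarith
  · intro h
    obtain ⟨p, _, hp⟩ := Finset.mem_map.1 h
    exact p.2.one_lt.ne' hp

theorem Eu (Q : ℕ → Prop) {s : ℝ} (hs : 1 < s) :
    (Summable fun d : ℕ => if SF Q d then (d : ℝ) ^ (-s) else 0) ∧
      Real.exp (ds (fun p => p.Prime ∧ Q p) s - 1) ≤ ds (SF Q) s ∧
      ds (SF Q) s ≤ Real.exp (ds (fun p => p.Prime ∧ Q p) s) := by
  have hpow : Summable (fun n : ℕ => (n : ℝ) ^ (-s)) := Real.summable_nat_rpow.2 (by linarith)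
  have hgen : ∀ P : ℕ → Prop, (∀ d, 0 ≤ (if P d then (d : ℝ) ^ (-s) else 0)) ∧
      (∀ d, (if P d then (d : ℝ) ^ (-s) else 0) ≤ (d : ℝ) ^ (-s)) := by
    intro P
    refine ⟨fun d => ?_, fun d => ?_⟩
    · split_ifs
      · exact Real.rpow_nonneg (Nat.cast_nonneg d) _
      · exact le_rfl
    · split_ifs
      · exact le_rfl
      · exact Real.rpow_nonneg (Nat.cast_nonneg d) _
  have hsm : ∀ P : ℕ → Prop, Summable (fun d : ℕ => if P d then (d : ℝ) ^ (-s) else 0) :=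
    fun P => Summable.of_nonneg_of_le (hgen P).1 (hgen P).2 hpow
  refine ⟨hsm _, ?_⟩
  obtain ⟨f, hf⟩ : ∃ f : ℕ → ℝ, f = fun d => if SF Q d then (d : ℝ) ^ (-s) else 0 := ⟨_, rfl⟩
  have hfd : ds (SF Q) s = ∑' n, f n := by rw [hf]; rfl
  have hfs : Summable (‖f ·‖) := by
    have h1 : (fun n => ‖f n‖) = f := by
      funext n
      rw [Real.norm_eq_abs, abs_of_nonneg]
      rw [hf]
      exact (hgen _).1 n
    rw [h1, hf]
    exact hsm _
  have hf0 : f 0 = 0 := by
    rw [hf]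
    exact if_neg fun h => not_squarefree_zero h.1
  have hf1 : f 1 = 1 := by
    rw [hf]
    show (if SF Q 1 then ((1 : ℕ) : ℝ) ^ (-s) else 0) = 1
    rw [if_pos, Nat.cast_one, Real.one_rpow]
    refine ⟨squarefree_one, fun p hp hd => ?_⟩
    exact absurd (Nat.dvd_one.1 hd) hp.one_lt.ne'
  have hmul : ∀ {m n : ℕ}, m.Coprime n → f (m * n) = f m * f n := by
    intro m n hmn
    have h1 : SF Q (m * n) ↔ SF Q m ∧ SF Q n := by
      unfold SF
      rw [Nat.squarefree_mul hmn]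
      constructor
      · rintro ⟨⟨h2, h3⟩, h4⟩
        exact ⟨⟨h2, fun p hp hd => h4 p hp (dvd_mul_of_dvd_left hd n)⟩,
          ⟨h3, fun p hp hd => h4 p hp (dvd_mul_of_dvd_right hd m)⟩⟩
      · rintro ⟨⟨h2, h4⟩, ⟨h3, h5⟩⟩
        refine ⟨⟨h2, h3⟩, fun p hp hd => ?_⟩
        rcases (hp.dvd_mul).1 hd with h6 | h6
        · exact h4 p hp h6
        · exact h5 p hp h6
    rw [hf]
    show (if SF Q (m * n) then ((m * n : ℕ) : ℝ) ^ (-s) else 0) =
      (if SF Q m then (m : ℝ) ^ (-s) else 0) * (if SF Q n then (n : ℝ) ^ (-s) else 0)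
    by_cases h2 : SF Q m
    · by_cases h3 : SF Q n
      · rw [if_pos (h1.2 ⟨h2, h3⟩), if_pos h2, if_pos h3, Nat.cast_mul,
          Real.mul_rpow (Nat.cast_nonneg m) (Nat.cast_nonneg n)]
      · rw [if_neg (fun h => h3 (h1.1 h).2), if_neg h3, mul_zero]
    · rw [if_neg (fun h => h2 (h1.1 h).1), if_neg h2, zero_mul]
  have hprod := EulerProduct.eulerProduct_hasProd hf1 hmul hfs hf0
  rw [← hfd] at hprod
  obtain ⟨P, hP⟩ : ∃ P : ℕ → Prop, P = fun p => p.Prime ∧ Q p := ⟨_, rfl⟩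
  have hPi : ∀ n, P n ↔ n.Prime ∧ Q n := fun n => by rw [hP]
  rw [← hP]
  obtain ⟨x, hx⟩ : ∃ x : ℕ → ℝ, x = fun p => if P p then (p : ℝ) ^ (-s) else 0 :=
    ⟨_, rfl⟩
  have hx0 : ∀ n, 0 ≤ x n := by
    intro n
    rw [hx]
    exact (hgen P).1 n
  have hterm : ∀ p : Nat.Primes, ∑' e, f ((p : ℕ) ^ e) = 1 + x p := by
    intro p
    have hp : (p : ℕ).Prime := p.2
    rw [tsum_eq_sum (s := Finset.range 2)]
    · rw [Finset.sum_range_succ, Finset.sum_range_one, pow_zero, pow_one, hf1]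
      congr 1
      rw [hf, hx]
      have h1 : SF Q (p : ℕ) ↔ (p : ℕ).Prime ∧ Q p := by
        constructor
        · intro h
          exact ⟨hp, h.2 p hp dvd_rfl⟩
        · rintro ⟨-, h⟩
          refine ⟨hp.prime.squarefree, fun q hq hd => ?_⟩
          rw [(Nat.prime_dvd_prime_iff_eq hq hp).1 hd]
          exact h
      by_cases h2 : SF Q (p : ℕ)
      · show (if SF Q (p : ℕ) then (((p : ℕ)) : ℝ) ^ (-s) else 0) = _
        rw [if_pos h2]
        exact (if_pos ((hPi _).2 (h1.1 h2))).symm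
      · show (if SF Q (p : ℕ) then (((p : ℕ)) : ℝ) ^ (-s) else 0) = _
        rw [if_neg h2]
        exact (if_neg fun h => h2 (h1.2 ((hPi _).1 h))).symm
    · intro e he
      rw [Finset.mem_range, not_lt] at he
      rw [hf]
      refine if_neg fun h => ?_
      have h1 := (Nat.squarefree_pow_iff hp.one_lt.ne' (by omega : e ≠ 0)).1 h.1
      omega
  have hX : HasSum (fun p : Nat.Primes => x p) (ds P s) := by
    have h1 : HasSum x (ds P s) := by
      have h2 := (hsm P).hasSum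
      rw [hx]
      exact h2
    have h3 : Function.support x ⊆ {p : ℕ | p.Prime} := by
      intro n hn
      by_contra h4
      apply hn
      rw [hx]
      exact if_neg fun h => h4 ((hPi _).1 h).1
    exact (hasSum_subtype_iff_of_support_subset h3).2 h1
  have hprod' : Filter.Tendsto (fun F : Finset Nat.Primes => ∏ p ∈ F, (1 + x p)) Filter.atTop
      (nhds (ds (SF Q) s)) := by
    have h1 : HasProd (fun p : Nat.Primes => 1 + x p) (ds (SF Q) s) := by
      refine hprod.congr_fun ?_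
      intro p
      exact (hterm p).symm
    exact h1
  have hexp : Filter.Tendsto (fun F : Finset Nat.Primes => Real.exp (∑ p ∈ F, x p)) Filter.atTop
      (nhds (Real.exp (ds P s))) :=
    (Real.continuous_exp.tendsto _).comp hX
  have hexp' : Filter.Tendsto (fun F : Finset Nat.Primes => Real.exp (∑ p ∈ F, x p - 1))
      Filter.atTop (nhds (Real.exp (ds P s - 1))) := by
    have h1 : Filter.Tendsto (fun F : Finset Nat.Primes => ∑ p ∈ F, x p) Filter.atTop
      (nhds (ds P s)) := hX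
    exact (Real.continuous_exp.tendsto _).comp (h1.sub_const 1)
  refine ⟨le_of_tendsto_of_tendsto' hexp' hprod' fun F => ?_,
    le_of_tendsto_of_tendsto' hprod' hexp fun F => ?_⟩
  · have h1 : ∑ p ∈ F, x p ^ 2 ≤ 1 := by
      refine le_trans (Finset.sum_le_sum fun p _ => ?_) (Eu_sq F)
      have hp : (1 : ℝ) ≤ ((p : ℕ) : ℝ) := by exact_mod_cast p.2.one_lt.le
      have h2 : x p ≤ 1 / ((p : ℕ) : ℝ) := by
        have h3 : x p ≤ ((p : ℕ) : ℝ) ^ (-s) := by
          rw [hx]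
          exact (hgen P).2 p
        refine h3.trans ?_
        rw [one_div, ← Real.rpow_neg_one]
        exact Real.rpow_le_rpow_of_exponent_le hp (by linarith)
      calc x p ^ 2 ≤ (1 / ((p : ℕ) : ℝ)) ^ 2 := pow_le_pow_left₀ (hx0 p) h2 2
        _ = 1 / ((p : ℕ) : ℝ) ^ 2 := by rw [div_pow, one_pow]
    calc Real.exp (∑ p ∈ F, x p - 1) ≤ Real.exp (∑ p ∈ F, (x p - x p ^ 2)) := by
          rw [Finset.sum_sub_distrib]
          exact Real.exp_le_exp.2 (by linarith)
      _ = ∏ p ∈ F, Real.exp (x p - x p ^ 2) := Real.exp_sum _ _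
      _ ≤ ∏ p ∈ F, (1 + x p) :=
        Finset.prod_le_prod (fun p _ => (Real.exp_pos _).le) fun p _ => Eu_log (hx0 p)
  · rw [Real.exp_sum]
    refine Finset.prod_le_prod (fun p _ => by linarith [hx0 p]) fun p _ => ?_
    linarith [Real.add_one_le_exp (x p)]

end H14CT
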