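import Pool.Agent.H14.CT.Df
import Pool.Agent.H17.PNT

/-!
ROW Pa (project MP_78d38b_T1, about 100 lines). Primes in the classes of a modulus in `(y, z]`,
`z ≥ 2 y`.

PROOF. `H17.piAP_tendsto` (Pool/Agent/H17/PNT.lean): `piAP a x * log x / x → (m.totient)⁻¹`. There are
finitely many classes, so for `x ≥ X₁` and all units `a`: `(9/10) x / (φ log x) ≤ piAP a x ≤
(11/10) x / (φ log x)` with `φ = m.totient`. For `X ≤ y`, `2 y ≤ z`: the number of the statement is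
`piAP a z - piAP a y` (cardinality of the filter `p ≤ z` minus the filter `p ≤ y`, a subset), and
`piAP a y ≤ piAP a (z / 2) ≤ (11/10) (z / 2) / (φ log (z / 2))`, `log (z / 2) ≥ (10/11) log z` for `z`
large (`z ≥ 2 ^ 11`). So the number is at least `(9/10 - (11/10)(1/2)(11/10)) z / (φ log z) =
(0.9 - 0.605) z / (φ log z)`, and `c = 1 / (4 φ)` works. (See the definition of `piAP` in
Pool/Agent/H17; `X = max (X₁) (2 ^ 11)` or similar.)
-/

set_option autoImplicit false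
open scoped Classical

namespace H14CT

theorem Pa_mono {m : ℕ} (a : ZMod m) {x y : ℝ} (h : x ≤ y) : Pool.Agent.H17.piAP a x ≤ Pool.Agent.H17.piAP a y := by
  refine Finset.card_le_card fun p hp => ?_
  rw [Finset.mem_filter, Finset.mem_Icc] at hp ⊢
  exact ⟨⟨hp.1.1, hp.1.2.trans (Nat.floor_le_floor h)⟩, hp.2⟩

theorem Pa_split {m : ℕ} (a : ZMod m) (y z : ℝ) : Pool.Agent.H17.piAP a z ≤
    ((Finset.Icc 1 ⌊z⌋₊).filter fun p : ℕ => p.Prime ∧ y < p ∧ (p : ZMod m) = a).card +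
      Pool.Agent.H17.piAP a y := by
  refine le_trans (Finset.card_le_card ?_) (Finset.card_union_le _ _)
  intro p hp
  rw [Finset.mem_filter, Finset.mem_Icc] at hp
  rw [Finset.mem_union, Finset.mem_filter, Finset.mem_filter, Finset.mem_Icc, Finset.mem_Icc]
  rcases lt_or_ge y (p : ℝ) with h | h
  · exact Or.inl ⟨hp.1, hp.2.1, h, hp.2.2⟩
  · exact Or.inr ⟨⟨hp.1.1, Nat.le_floor h⟩, hp.2⟩

theorem Pa_bds (m : ℕ) [NeZero m] : ∃ X : ℝ, ∀ x : ℝ, X ≤ x → ∀ a : ZMod m, IsUnit a →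
    9 / 10 * (m.totient : ℝ)⁻¹ ≤ (Pool.Agent.H17.piAP a x : ℝ) * Real.log x / x ∧
      (Pool.Agent.H17.piAP a x : ℝ) * Real.log x / x ≤ 11 / 10 * (m.totient : ℝ)⁻¹ := by
  have hφ : (0 : ℝ) < (m.totient : ℝ)⁻¹ :=
    inv_pos.2 (Nat.cast_pos.2 (Nat.totient_pos.2 (Nat.pos_of_ne_zero (NeZero.ne m))))
  have h : ∀ᶠ x : ℝ in Filter.atTop, ∀ a : ZMod m, IsUnit a →
      9 / 10 * (m.totient : ℝ)⁻¹ ≤ (Pool.Agent.H17.piAP a x : ℝ) * Real.log x / x ∧
        (Pool.Agent.H17.piAP a x : ℝ) * Real.log x / x ≤ 11 / 10 * (m.totient : ℝ)⁻¹ := by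
    rw [Filter.eventually_all]
    intro a
    by_cases ha : IsUnit a
    · have h1 := Pool.Agent.H17.piAP_tendsto ha
      filter_upwards [h1.eventually (lt_mem_nhds (show 9 / 10 * (m.totient : ℝ)⁻¹ < _ by linarith)),
        h1.eventually (gt_mem_nhds (show _ < 11 / 10 * (m.totient : ℝ)⁻¹ by linarith))] with x h2 h3 _
      exact ⟨h2.le, h3.le⟩
    · exact Filter.Eventually.of_forall fun x h => absurd h ha
  obtain ⟨X, hX⟩ := Filter.eventually_atTop.1 h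
  exact ⟨X, hX⟩

theorem Pa (m : ℕ) [NeZero m] : ∃ c : ℝ, 0 < c ∧ ∃ X : ℝ, 2 ≤ X ∧ ∀ a : ZMod m, IsUnit a →
    ∀ y z : ℝ, X ≤ y → 2 * y ≤ z → c * z / Real.log z ≤
      (((Finset.Icc 1 ⌊z⌋₊).filter fun p : ℕ => p.Prime ∧ y < p ∧ (p : ZMod m) = a).card : ℝ) := by
  have hφ : (0 : ℝ) < (m.totient : ℝ)⁻¹ :=
    inv_pos.2 (Nat.cast_pos.2 (Nat.totient_pos.2 (Nat.pos_of_ne_zero (NeZero.ne m))))
  obtain ⟨X, hX⟩ := Pa_bds m
  refine ⟨(m.totient : ℝ)⁻¹ / 4, by linarith, max X (2 ^ 11), ?_, ?_⟩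
  · exact le_trans (by norm_num) (le_max_right _ _)
  intro a ha y z hy hz
  have hy1 : X ≤ y := (le_max_left _ _).trans hy
  have hy2 : (2 : ℝ) ^ 11 ≤ y := (le_max_right _ _).trans hy
  have hy3 : (0 : ℝ) < y := lt_of_lt_of_le (by norm_num) hy2
  have hz1 : (2 : ℝ) ^ 11 ≤ z := by linarith
  have hz0 : (0 : ℝ) < z := by linarith
  have hw : y ≤ z / 2 := by linarith
  have hw0 : (0 : ℝ) < z / 2 := by linarith
  have hl2 : 0 < Real.log 2 := Real.log_pos (by norm_num)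
  have hlz : 11 * Real.log 2 ≤ Real.log z := by
    have h1 := Real.log_le_log (by norm_num) hz1
    rwa [Real.log_pow, Nat.cast_ofNat] at h1
  have hlz0 : 0 < Real.log z := by linarith
  have hlw : Real.log (z / 2) = Real.log z - Real.log 2 :=
    Real.log_div hz0.ne' (by norm_num)
  have hlw0 : 0 < Real.log (z / 2) := by rw [hlw]; linarith
  obtain ⟨h1, -⟩ := hX z (by linarith) a ha
  obtain ⟨-, h2⟩ := hX (z / 2) (by linarith) a ha
  have h3 : 9 / 10 * (m.totient : ℝ)⁻¹ * z / Real.log z ≤ (Pool.Agent.H17.piAP a z : ℝ) := by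
    rw [div_le_iff₀ hlz0]
    rwa [le_div_iff₀ hz0] at h1
  have h4 : (Pool.Agent.H17.piAP a (z / 2) : ℝ) ≤ 605 / 1000 * (m.totient : ℝ)⁻¹ * z / Real.log z := by
    rw [le_div_iff₀ hlz0]
    rw [div_le_iff₀ hw0] at h2
    have h5 : Real.log z ≤ 11 / 10 * Real.log (z / 2) := by rw [hlw]; linarith
    calc (Pool.Agent.H17.piAP a (z / 2) : ℝ) * Real.log z
        ≤ (Pool.Agent.H17.piAP a (z / 2) : ℝ) * (11 / 10 * Real.log (z / 2)) :=
          mul_le_mul_of_nonneg_left h5 (Nat.cast_nonneg _)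
      _ = 11 / 10 * ((Pool.Agent.H17.piAP a (z / 2) : ℝ) * Real.log (z / 2)) := by ring
      _ ≤ 11 / 10 * (11 / 10 * (m.totient : ℝ)⁻¹ * (z / 2)) := by linarith
      _ = _ := by ring
  have h5 : (Pool.Agent.H17.piAP a y : ℝ) ≤ (Pool.Agent.H17.piAP a (z / 2) : ℝ) := Nat.cast_le.2 (Pa_mono a hw)
  have h6 : (Pool.Agent.H17.piAP a z : ℝ) ≤
      (((Finset.Icc 1 ⌊z⌋₊).filter fun p : ℕ => p.Prime ∧ y < p ∧ (p : ZMod m) = a).card : ℝ) +
        (Pool.Agent.H17.piAP a y : ℝ) := by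
    exact_mod_cast Pa_split a y z
  have h7 : (0 : ℝ) ≤ (m.totient : ℝ)⁻¹ * z / Real.log z := by positivity
  have e1 : 9 / 10 * (m.totient : ℝ)⁻¹ * z / Real.log z =
      9 / 10 * ((m.totient : ℝ)⁻¹ * z / Real.log z) := by ring
  have e2 : 605 / 1000 * (m.totient : ℝ)⁻¹ * z / Real.log z =
      605 / 1000 * ((m.totient : ℝ)⁻¹ * z / Real.log z) := by ring
  have e3 : (m.totient : ℝ)⁻¹ / 4 * z / Real.log z =
      1 / 4 * ((m.totient : ℝ)⁻¹ * z / Real.log z) := by ring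
  rw [e1] at h3
  rw [e2] at h4
  rw [e3]
  linarith

end H14CT
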