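import Pool.Agent.H14.CT.Sl
import Pool.Agent.H14.CT.Pa
import Pool.Agent.H14.CT.As
import Pool.Agent.H14.CT.Ad
import Pool.Agent.H14.CT.Cl
import Pool.Agent.H38.T1.Fr
import Pool.Agent.H93.T1.Ng

/-!
The number of the free integers up to `x`.
-/

set_option autoImplicit false
open scoped Classical

open NumberTheorySymbols H38T1 H93T1

namespace H14CT

private lemma Fin_coprime_md {lv : ℕ} {T : Finset ℕ} {l : ℕ} (hl : l.Prime) (h2 : l ≠ 2)
    (hT : ∀ q ∈ T, q.Prime ∧ q ≠ 2) (hlT : l ∉ T) : l.Coprime (md lv T) := by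
  unfold md
  refine Nat.Coprime.mul_right ?_ (Nat.Coprime.prod_right fun q hq => Nat.Coprime.pow_right _ ?_)
  · have h : l.Coprime 2 := (Nat.coprime_primes hl Nat.prime_two).2 h2
    exact Nat.Coprime.pow_right 3 h
  · refine (Nat.coprime_primes hl (hT q hq).1).2 ?_
    rintro rfl
    exact hlT hq

private lemma Fin_inst {α : Type} (s : Finset α) (p : α → Prop) (i j : DecidablePred p) :
    (@Finset.filter α p i s).card = (@Finset.filter α p j s).card := by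
  have e : i = j := Subsingleton.elim i j
  subst e
  rfl

private lemma Fin_mul_primeFactors {l d : ℕ} (hl : l.Prime) (hd : d ≠ 0) (hld : ¬ l ∣ d) :
    (l * d).primeFactors.card = d.primeFactors.card + 1 := by
  have hco : Nat.Coprime l d := (Nat.Prime.coprime_iff_not_dvd hl).2 hld
  rw [hco.primeFactors_mul, Finset.card_union_of_disjoint hco.disjoint_primeFactors,
    hl.primeFactors, Finset.card_singleton, add_comm]

/-- **S4.** -/
theorem count {a b : ℤ} (hab : Hyp a b) (lv : ℕ) (S : Finset ℕ) (hS : ∀ p ∈ S, p.Prime ∧ p ≠ 2)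
    {J : ℕ → Prop}
    (hJ : ∀ l : ℕ, l.Prime → (∀ p ∈ S, ¬ p ^ (lv + 2) ∣ l ^ (p - 1) - 1) → J l) {N : ℕ} (hN : N ≠ 0)
    (P' : Finset ℕ) (hP' : ∀ l ∈ P', l.Prime) :
    ∃ c : ℝ, 0 < c ∧ ∃ X : ℝ, ∀ x : ℝ, X ≤ x →
      c * x * (Real.log x) ^ (1 / 4 * ∏ p ∈ S, (1 - 1 / (p : ℝ) ^ (lv + 1)) - 1) ≤
        (((Finset.Icc 1 ⌊x⌋₊).filter fun d : ℕ =>
          Free a b J d ∧ d.Coprime N ∧ ∀ l ∈ P', ¬ l ∣ d ∧ SqMod l d).card : ℝ) := by
  have hb0 := Hyp.b_ne hab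
  have hD0 := Hyp.D_ne hab
  obtain ⟨T, hTd⟩ : ∃ T : Finset ℕ, T = Qs a b ∪ S ∪ P'.erase 2 := ⟨_, rfl⟩
  have hT : ∀ q ∈ T, q.Prime ∧ q ≠ 2 := by
    intro q hq
    rw [hTd, Finset.mem_union, Finset.mem_union] at hq
    rcases hq with (hq | hq) | hq
    · exact ⟨((mem_Qs hab).1 hq).1, ((mem_Qs hab).1 hq).2.1⟩
    · exact hS q hq
    · exact ⟨hP' q (Finset.mem_of_mem_erase hq), Finset.ne_of_mem_erase hq⟩
  have hQ : ∀ q : ℕ, q.Prime → q ≠ 2 → (q : ℤ) ∣ b * (a ^ 2 - 4 * b) → q ∈ T := by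
    intro q hq h2 hd
    rw [hTd, Finset.mem_union, Finset.mem_union]
    exact Or.inl (Or.inl ((mem_Qs hab).2 ⟨hq, h2, hd⟩))
  have hST : S ⊆ T := by
    intro q hq
    rw [hTd, Finset.mem_union, Finset.mem_union]
    exact Or.inl (Or.inr hq)
  have hP'T : ∀ l ∈ P', l = 2 ∨ l ∈ T := by
    intro l hl
    by_cases h : l = 2
    · exact Or.inl h
    · right
      rw [hTd, Finset.mem_union]
      exact Or.inr (Finset.mem_erase.2 ⟨h, hl⟩)
  haveI : NeZero (md lv T) := ⟨md_ne lv hT⟩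
  -- a neutral prime outside `T`
  obtain ⟨c₁, hc₁, hneu⟩ := neutral_class hab
  have hm1 : NeZero (8 * ∏ q ∈ Qs a b, q) := by
    refine ⟨mul_ne_zero (by norm_num) (Finset.prod_ne_zero_iff.2 fun q hq => ?_)⟩
    exact ((mem_Qs hab).1 hq).1.ne_zero
  obtain ⟨c₀, hc₀T, hc₀p, hc₀c⟩ := Nat.forall_exists_prime_gt_and_eq_mod
    ((ZMod.isUnit_iff_coprime c₁ (8 * ∏ q ∈ Qs a b, q)).2 hc₁) (T.sup id + 2)
  have hneu₀ := hneu c₀ hc₀p ((ZMod.natCast_eq_natCast_iff _ _ _).1 hc₀c)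
  have hc₀T' : c₀ ∉ T := by
    intro h
    have := Finset.le_sup (f := id) h
    simp only [id] at this
    omega
  have hc₀md : c₀.Coprime (md lv T) := Fin_coprime_md hc₀p (by omega) hT hc₀T'
  have hlp : ∀ {l : ℕ}, l.Prime → Prime (l : ℤ) := fun h => Nat.prime_iff_prime_int.1 h
  have hb1 : ¬ (c₀ : ℤ) ∣ b := fun h => hneu₀.1 ((h.mul_right _).mul_left 2)
  have hD1 : ¬ (c₀ : ℤ) ∣ (a ^ 2 - 4 * b) := fun h => hneu₀.1 ((h.mul_left _).mul_left 2)
  have hJb : J(b | c₀) = -1 := (not_sqm_iff hc₀p hb1).1 hneu₀.2.1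
  have hJD : J((a ^ 2 - 4 * b) | c₀) = -1 := (not_sqm_iff hc₀p hD1).1 hneu₀.2.2
  obtain ⟨A, hAne, hAu, hAc, hAn⟩ := Ad hb0 hD0 hT hQ hST hc₀md hJb hJD
  -- the auxiliary prime
  obtain ⟨a₀, ha₀⟩ := hAne
  obtain ⟨l₀, hl₀g, hl₀p, hl₀c⟩ := Nat.forall_exists_prime_gt_and_eq_mod (hAu a₀ ha₀)
    (N + P'.sup id)
  have hl₀A : (l₀ : ZMod (md lv T)) ∈ A := by rw [hl₀c]; exact ha₀
  have hl₀P : l₀ ∉ P' := by
    intro h
    have := Finset.le_sup (f := id) h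
    simp only [id] at this
    omega
  have hP'0 : ∏ l ∈ P', l ≠ 0 := Finset.prod_ne_zero_iff.2 fun l hl => (hP' l hl).ne_zero
  obtain ⟨N', hN'⟩ : ∃ N' : ℕ, N' = N * (∏ l ∈ P', l) * l₀ := ⟨_, rfl⟩
  have hN'0 : N' ≠ 0 := by
    rw [hN']
    exact mul_ne_zero (mul_ne_zero hN hP'0) hl₀p.ne_zero
  -- the squarefree numbers with prime factors in the classes
  obtain ⟨c₂, hc₂, Y, hY⟩ := Sl hAu ⟨a₀, ha₀⟩ N'.primeFactors
  obtain ⟨c₁', hc₁', X₁, hX₁, hPa⟩ := Pa (md lv T)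
  set κ : ℝ := (A.card : ℝ) / (md lv T).totient with hκ
  have htot : (0 : ℝ) < (md lv T).totient := by
    exact_mod_cast Nat.totient_pos.2 (Nat.pos_of_ne_zero (NeZero.ne _))
  have hκ0 : 0 < κ := by
    rw [hκ]
    have : 0 < A.card := Finset.card_pos.2 ⟨a₀, ha₀⟩
    positivity
  have hκle : 1 / 4 * ∏ p ∈ S, (1 - 1 / (p : ℝ) ^ (lv + 1)) ≤ κ := by
    rw [hκ, le_div_iff₀ htot]
    exact hAc
  set P : ℕ → Prop := SF fun p => (p : ZMod (md lv T)) ∈ A ∧ p ∉ N'.primeFactors with hP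
  have hPn : ∀ d, P d → ∀ l : ℕ, l.Prime → l ∣ d → ¬ l ∣ N' := by
    intro d hd l hl hld h
    exact (hd.2 l hl hld).2 (Nat.mem_primeFactors.2 ⟨hl, h, hN'0⟩)
  have hl₀N' : l₀ ∣ N' := by rw [hN']; exact Dvd.intro_left _ rfl
  have hl₀d : ∀ d, P d → ¬ l₀ ∣ d := fun d hd h => hPn d hd l₀ hl₀p h hl₀N'
  set r : ℕ → ℕ := fun d => if Odd d.primeFactors.card then d else l₀ * d with hrdef
  -- the properties of `r d`
  have hr1 : ∀ d, P d → Squarefree (r d) ∧ (∀ l : ℕ, l.Prime → l ∣ r d →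
      (l : ZMod (md lv T)) ∈ A ∧ (l = l₀ ∨ ¬ l ∣ N')) ∧ Odd (r d).primeFactors.card := by
    intro d hd
    by_cases ho : Odd d.primeFactors.card
    · have e : r d = d := by rw [hrdef]; simp only [if_pos ho]
      rw [e]
      exact ⟨hd.1, fun l hl hld => ⟨(hd.2 l hl hld).1, Or.inr (hPn d hd l hl hld)⟩, ho⟩
    · have e : r d = l₀ * d := by rw [hrdef]; simp only [if_neg ho]
      have hco : Nat.Coprime l₀ d := (Nat.Prime.coprime_iff_not_dvd hl₀p).2 (hl₀d d hd)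
      rw [e]
      refine ⟨(Nat.squarefree_mul hco).2 ⟨hl₀p.prime.squarefree, hd.1⟩, ?_, ?_⟩
      · intro l hl hld
        rcases (Nat.Prime.dvd_mul hl).1 hld with h | h
        · have h' := (Nat.prime_dvd_prime_iff_eq hl hl₀p).1 h
          rw [h']
          exact ⟨hl₀A, Or.inl rfl⟩
        · exact ⟨(hd.2 l hl h).1, Or.inr (hPn d hd l hl h)⟩
      · rw [Fin_mul_primeFactors hl₀p hd.1.ne_zero (hl₀d d hd)]
        exact (Nat.not_odd_iff_even.1 ho).add_one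
  have hcl : ∀ d, ∃ c : ZMod (md lv T), P d → IsUnit c ∧ ∀ p : ℕ, p.Prime →
      (p : ZMod (md lv T)) = c → Neu b (a ^ 2 - 4 * b) p ∧ (∀ q ∈ S, ¬ q ^ (lv + 2) ∣ p ^ (q - 1) - 1) ∧
        (p * r d) % 8 = 1 ∧ ∀ q ∈ T, ¬ q ∣ r d → Sqm q ((p * r d : ℕ) : ℤ) := by
    intro d
    by_cases hd : P d
    · obtain ⟨h1, h2, h3⟩ := hr1 d hd
      obtain ⟨c, hc⟩ := Cl hb0 hD0 hT hQ hST (e := r d)
        ⟨h1, fun l hl hld => (hAn l hl (h2 l hl hld).1).1⟩ h3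
      exact ⟨c, fun _ => hc⟩
    · exact ⟨1, fun h => absurd h hd⟩
  choose cl hcl using hcl
  have hinj : Set.InjOn r {d | P d} := by
    intro d hd d' hd' h
    by_cases ho : Odd d.primeFactors.card <;> by_cases ho' : Odd d'.primeFactors.card
    · simpa [hrdef, ho, ho'] using h
    · simp only [hrdef, if_pos ho, if_neg ho'] at h
      exact absurd (h ▸ Dvd.intro _ rfl : l₀ ∣ d) (hl₀d d hd)
    · simp only [hrdef, if_neg ho, if_pos ho'] at h
      exact absurd (h ▸ Dvd.intro _ rfl : l₀ ∣ d') (hl₀d d' hd')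
    · simp only [hrdef, if_neg ho, if_neg ho'] at h
      exact Nat.eq_of_mul_eq_mul_left hl₀p.pos h
  have hsize : ∀ d, P d → 0 < d → 0 < r d ∧ r d ≤ l₀ * d := by
    intro d hd hd0
    by_cases ho : Odd d.primeFactors.card
    · simp only [hrdef, if_pos ho]
      exact ⟨hd0, Nat.le_mul_of_pos_left d hl₀p.pos⟩
    · simp only [hrdef, if_neg ho]
      exact ⟨Nat.mul_pos hl₀p.pos hd0, le_rfl⟩
  have hprod : ∀ d, P d → ∀ p : ℕ, p.Prime → N' < p → r d < p → (p : ZMod (md lv T)) = cl d →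
      (Free a b J (p * r d) ∧ (p * r d).Coprime N ∧
        ∀ l ∈ P', ¬ l ∣ p * r d ∧ SqMod l ((p * r d : ℕ) : ℤ)) := by
    intro d hd p hp hpN hpr hpc
    obtain ⟨h1, h2, h3⟩ := hr1 d hd
    obtain ⟨k1, k2, k3, k4⟩ := (hcl d hd).2 p hp hpc
    have hr0 : 0 < r d := Nat.pos_of_ne_zero h1.ne_zero
    have hpr' : ¬ p ∣ r d := fun h => absurd (Nat.le_of_dvd hr0 h) (by omega)
    have hco : Nat.Coprime p (r d) := (Nat.Prime.coprime_iff_not_dvd hp).2 hpr'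
    have hpN' : ¬ p ∣ N' := fun h =>
      absurd (Nat.le_of_dvd (Nat.pos_of_ne_zero hN'0) h) (by omega)
    have hl₀N : ¬ l₀ ∣ N := fun h =>
      absurd (Nat.le_of_dvd (Nat.pos_of_ne_zero hN) h) (by omega)
    have hdvN : ∀ l : ℕ, l.Prime → l ∣ p * r d → ¬ l ∣ N := by
      intro l hl hld hlN
      have hlN' : l ∣ N' := by
        rw [hN', mul_assoc]
        exact hlN.mul_right _
      rcases (Nat.Prime.dvd_mul hl).1 hld with h | h
      · exact hpN' (((Nat.prime_dvd_prime_iff_eq hl hp).1 h) ▸ hlN')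
      · rcases (h2 l hl h).2 with h4 | h4
        · exact hl₀N (h4 ▸ hlN)
        · exact h4 hlN'
    have hdvP : ∀ l ∈ P', ¬ l ∣ p * r d := by
      intro l hlP hld
      have hl := hP' l hlP
      have hlN' : l ∣ N' := by
        rw [hN']
        exact ((Finset.dvd_prod_of_mem _ hlP).mul_left N).mul_right l₀
      rcases (Nat.Prime.dvd_mul hl).1 hld with h | h
      · exact hpN' (((Nat.prime_dvd_prime_iff_eq hl hp).1 h) ▸ hlN')
      · rcases (h2 l hl h).2 with h4 | h4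
        · exact hl₀P (h4 ▸ hlP)
        · exact h4 hlN'
    have hneu' : ∀ l : ℕ, l.Prime → l ∣ p * r d →
        Neu b (a ^ 2 - 4 * b) l ∧ ∀ q ∈ S, ¬ q ^ (lv + 2) ∣ l ^ (q - 1) - 1 := by
      intro l hl hld
      rcases (Nat.Prime.dvd_mul hl).1 hld with h | h
      · rw [(Nat.prime_dvd_prime_iff_eq hl hp).1 h]
        exact ⟨k1, k2⟩
      · exact hAn l hl (h2 l hl h).1
    refine ⟨⟨(Nat.squarefree_mul hco).2 ⟨hp.prime.squarefree, h1⟩, k3, ?_, ?_⟩, ?_, ?_⟩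
    · intro l hl hld
      obtain ⟨h5, h6⟩ := hneu' l hl hld
      exact ⟨h5.1, h5.2.1, h5.2.2, hJ l hl h6⟩
    · intro q hq hq2 hqd
      refine k4 q (hQ q hq hq2 hqd) ?_
      intro h
      exact (hneu' q hq (h.mul_left p)).1.1 (hqd.mul_left 2)
    · rw [Nat.coprime_iff_gcd_eq_one]
      by_contra hne
      obtain ⟨l, hl, hlg⟩ := Nat.exists_prime_and_dvd hne
      exact hdvN l hl (hlg.trans (Nat.gcd_dvd_left _ _)) (hlg.trans (Nat.gcd_dvd_right _ _))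
    · intro l hlP
      refine ⟨hdvP l hlP, ?_⟩
      rcases hP'T l hlP with rfl | hlT
      · refine ⟨1, ?_⟩
        have h7 : (p * r d) % 2 = 1 := by omega
        have h8 : (((p * r d : ℕ) : ℤ)) % 2 = 1 := by exact_mod_cast h7
        have h9 : (((p * r d : ℕ) : ℤ)) - 1 ^ 2 = ((p * r d : ℕ) : ℤ) - 1 := by ring
        rw [h9]
        exact Int.dvd_of_emod_eq_zero (by omega)
      · exact k4 l hlT fun h => hdvP l hlP (h.mul_left p)

  obtain ⟨c, hc, X₀, hX₀⟩ := As (m := md lv T) (P := P)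
    (G := fun d : ℕ => Free a b J d ∧ d.Coprime N ∧ ∀ l ∈ P', ¬ l ∣ d ∧ SqMod l d)
    hκ0 hc₁' hc₂ hPa hY (K := l₀) (N := N') hl₀p.pos r cl hinj hsize
    (fun d hd => (hcl d hd).1) hprod
  refine ⟨c, hc, max X₀ (Real.exp 1), fun x hx => ?_⟩
  have h1 := hX₀ x ((le_max_left _ _).trans hx)
  have hx1 : Real.exp 1 ≤ x := (le_max_right _ _).trans hx
  have hx0 : 0 < x := (Real.exp_pos 1).trans_le hx1
  have hlog : 1 ≤ Real.log x := by
    rw [Real.le_log_iff_exp_le hx0]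
    exact hx1
  calc c * x * (Real.log x) ^ (1 / 4 * ∏ p ∈ S, (1 - 1 / (p : ℝ) ^ (lv + 1)) - 1)
      ≤ c * x * (Real.log x) ^ (κ - 1) :=
        mul_le_mul_of_nonneg_left (Real.rpow_le_rpow_of_exponent_le hlog (by linarith))
          (by positivity)
    _ ≤ _ := h1.trans (le_of_eq (congrArg Nat.cast (Fin_inst _ _ _ _)))

end H14CT
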