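import Pool.Agent.H14.CT.Df

/-!
ROW Jc (project MP_78d38b_T1, Mathlib only, about 110 lines). The Jacobi symbol `(x / n)` depends only
on `n` modulo `8` times the product of the odd primes dividing `x`.

PROOF. Let `x = t ^ 2 * x₁` with `x₁` squarefree (`Int` version: apply `Nat.sq_mul_squarefree` to
`x.natAbs` and take the sign of `x` into `x₁`). For `n` odd and prime to `x`: `J(x | n) = J(t | n) ^ 2 *
J(x₁ | n) = J(x₁ | n)` (`jacobiSym.mul_left`, `jacobiSym.sq_one'`-like lemma: `J(t | n) ^ 2 = 1` for `t`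
prime to `n`, `jacobiSym.sq_one`). By `jacobiSym.mod_right` `J(x₁ | n) = J(x₁ | n % (4 |x₁|))`, and
`4 |x₁|` divides `8 ∏ q ∈ T, q`: `|x₁|` is squarefree, its odd prime factors divide `x`, so belong to
`T` (`hT'`), and `2` divides it at most once: `|x₁| ∣ 2 ∏ q ∈ T, q` (for a squarefree number it
suffices that all its prime factors divide the right side, `UniqueFactorizationMonoid` or
`Nat.squarefree`: `Squarefree.dvd_of_squarefree_of_mul_dvd...`; one may use
`Nat.prod_primeFactors_of_squarefree` and `Finset.prod_dvd_prod_of_subset` with the set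
`insert 2 T`, for `2 ∉ T`). So `n = n'` modulo `4 |x₁|` and the symbols agree.
-/

set_option autoImplicit false
open scoped Classical

open NumberTheorySymbols

namespace H14CT

theorem Jc {x : ℤ} (hx : x ≠ 0) {T : Finset ℕ} (hT : ∀ q ∈ T, q.Prime ∧ q ≠ 2)
    (hT' : ∀ q : ℕ, q.Prime → q ≠ 2 → (q : ℤ) ∣ x → q ∈ T) {n n' : ℕ} (hn : Odd n) (hn' : Odd n')
    (hc : IsCoprime x n) (hc' : IsCoprime x n') (h : n ≡ n' [MOD 8 * ∏ q ∈ T, q]) :
    J(x | n) = J(x | n') := by
  obtain ⟨a, b, hab, hsq⟩ := Nat.sq_mul_squarefree x.natAbs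
  have hx1 : x = (b : ℤ) ^ 2 * (x.sign * a) := by
    have h1 : x.sign * (x.natAbs : ℤ) = x := Int.sign_mul_natAbs x
    rw [← hab] at h1
    push_cast at h1
    linear_combination -h1
  have hx1n : (x.sign * (a : ℤ)).natAbs = a := by
    rw [Int.natAbs_mul, Int.natAbs_natCast, Int.natAbs_sign_of_ne_zero hx, one_mul]
  have hred : ∀ k : ℕ, IsCoprime x k → Odd k →
      J(x | k) = J(x.sign * (a : ℤ) | k % (4 * a)) := by
    intro k hk hko
    have hb : IsCoprime (b : ℤ) k := by
      refine IsCoprime.of_isCoprime_of_dvd_left hk ?_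
      exact ⟨(b : ℤ) * (x.sign * a), by linear_combination hx1⟩
    have h1 : J(x | k) = J((b : ℤ) ^ 2 * (x.sign * a) | k) := by rw [← hx1]
    rw [h1, jacobiSym.mul_left, jacobiSym.sq_one' (Int.isCoprime_iff_gcd_eq_one.1 hb), one_mul,
      jacobiSym.mod_right _ hko, hx1n]
  have hdvd : a ∣ 2 * ∏ q ∈ T, q := by
    have h2 : (2 : ℕ) ∉ T := fun h2 => (hT 2 h2).2 rfl
    rw [← Finset.prod_insert (f := fun q : ℕ => q) h2]
    rw [← Nat.prod_primeFactors_of_squarefree hsq]
    refine Finset.prod_dvd_prod_of_subset _ _ _ fun p hp => ?_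
    rw [Finset.mem_insert]
    by_cases hp2 : p = 2
    · exact Or.inl hp2
    · refine Or.inr (hT' p (Nat.prime_of_mem_primeFactors hp) hp2 ?_)
      have h3 : p ∣ x.natAbs := by
        rw [← hab]
        exact (Nat.dvd_of_mem_primeFactors hp).mul_left _
      exact Int.natCast_dvd.2 h3
  have hmod : n % (4 * a) = n' % (4 * a) := by
    have h4 : 4 * a ∣ 8 * ∏ q ∈ T, q := by
      obtain ⟨c, hc⟩ := hdvd
      exact ⟨c, by linear_combination 4 * hc⟩
    exact h.of_dvd h4
  rw [hred n hc hn, hred n' hc' hn', hmod]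

end H14CT
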