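import Pool.Agent.H14.CT.Df

/-!
ROW Kar (project MP_78d38b_T1, Mathlib only, about 110 lines). From the behaviour of a Dirichlet series
at `s = 1` to a lower bound for the partial sums of `1 / d`.

PROOF. Fix `A ≥ 1` with `c₂ 2 ^ κ exp (-A / 2) ≤ c₁ / 2` (`exp (- A / 2) → 0`); note `c₂ ≥ c₁ > 0`
from `h1`, `h2` at `s = 2`. Let `y` be large, so that `δ = A / log y ≤ 1`. For `s = 1 + δ` split the sum
`ds P s` at `d ≤ y`:
* for `d ≤ y`, `d ≥ 1`: `d ^ (-s) ≤ 1 / d` (the term `d = 0` is zero: `0 ^ (-s) = 0` for `s ≠ 0`);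
* for `d > y`: `d ^ (-1 - δ) = d ^ (- δ / 2) d ^ (- 1 - δ / 2) ≤ y ^ (- δ / 2) d ^ (- (1 + δ / 2))` and
  `y ^ (- δ / 2) = exp (- A / 2)`.
Hence `c₁ δ ^ (-κ) ≤ ds P (1 + δ) ≤ ∑_{d ≤ y, P d} 1 / d + exp (-A/2) ds P (1 + δ / 2)` and
`ds P (1 + δ / 2) ≤ c₂ (δ / 2) ^ (-κ) = c₂ 2 ^ κ δ ^ (-κ)`. So the sum is at least `(c₁ / 2) δ ^ (-κ) =
(c₁ / 2) A ^ (-κ) (log y) ^ κ`. Take `c = (c₁ / 2) A ^ (-κ)`, `Y = exp A`.
-/

set_option autoImplicit false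
open scoped Classical

namespace H14CT

theorem Kar_pt {P : ℕ → Prop} {A y δ : ℝ} (hA : 0 < A) (hly : 0 < Real.log y) (hy : 0 < y)
    (hδ : δ = A / Real.log y) (d : ℕ) :
    (if P d then (d : ℝ) ^ (-(1 + δ)) else 0) ≤
      (if d ∈ (Finset.Icc 1 ⌊y⌋₊).filter P then (1 : ℝ) / d else 0) +
        Real.exp (-A / 2) * (if P d then (d : ℝ) ^ (-(1 + δ / 2)) else 0) := by
  have hδ0 : 0 < δ := by rw [hδ]; positivity
  by_cases hP : P d
  · rw [if_pos hP, if_pos hP]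
    rcases Nat.eq_zero_or_pos d with h0 | h0
    · rw [h0, Nat.cast_zero, Real.zero_rpow (by linarith), Real.zero_rpow (by linarith), if_neg (by simp)]
      simp
    · have hd1 : (1 : ℝ) ≤ d := by exact_mod_cast h0
      have hd0 : (0 : ℝ) < d := by linarith
      by_cases hd : d ≤ ⌊y⌋₊
      · rw [if_pos (Finset.mem_filter.2 ⟨Finset.mem_Icc.2 ⟨h0, hd⟩, hP⟩)]
        have h1 : (d : ℝ) ^ (-(1 + δ)) ≤ (d : ℝ) ^ (-1 : ℝ) :=
          Real.rpow_le_rpow_of_exponent_le hd1 (by linarith)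
        rw [Real.rpow_neg_one] at h1
        have h2 : 0 ≤ Real.exp (-A / 2) * (d : ℝ) ^ (-(1 + δ / 2)) := by positivity
        rw [one_div]
        linarith
      · rw [if_neg (by
          intro h
          exact hd (Finset.mem_Icc.1 (Finset.mem_filter.1 h).1).2), zero_add]
        have hyd : y ≤ d := by
          by_contra h
          exact hd (Nat.le_floor (not_le.1 h).le)
        have h1 : (d : ℝ) ^ (-(1 + δ)) = (d : ℝ) ^ (-(δ / 2)) * (d : ℝ) ^ (-(1 + δ / 2)) := by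
          rw [← Real.rpow_add hd0]
          congr 1
          ring
        have h2 : (d : ℝ) ^ (-(δ / 2)) ≤ y ^ (-(δ / 2)) :=
          Real.rpow_le_rpow_of_nonpos hy hyd (by linarith)
        have h3 : y ^ (-(δ / 2)) = Real.exp (-A / 2) := by
          rw [Real.rpow_def_of_pos hy, hδ]
          congr 1
          field_simp
        rw [h1, ← h3]
        exact mul_le_mul_of_nonneg_right h2 (by positivity)
  · rw [if_neg hP, if_neg hP, if_neg (by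
      intro h
      exact hP (Finset.mem_filter.1 h).2)]
    simp

theorem Kar {P : ℕ → Prop} {κ c₁ c₂ : ℝ} (hκ : 0 < κ) (hc₁ : 0 < c₁)
    (hs : ∀ s : ℝ, 1 < s → Summable fun d : ℕ => if P d then (d : ℝ) ^ (-s) else 0)
    (h1 : ∀ s : ℝ, 1 < s → s ≤ 2 → c₁ * (s - 1) ^ (-κ) ≤ ds P s)
    (h2 : ∀ s : ℝ, 1 < s → s ≤ 2 → ds P s ≤ c₂ * (s - 1) ^ (-κ)) :
    ∃ c : ℝ, 0 < c ∧ ∃ Y : ℝ, ∀ y : ℝ, Y ≤ y →
      c * (Real.log y) ^ κ ≤ ∑ d ∈ (Finset.Icc 1 ⌊y⌋₊).filter P, (1 : ℝ) / d := by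
  have hc₂ : 0 < c₂ := by
    have h3 := (h1 2 (by norm_num) le_rfl).trans (h2 2 (by norm_num) le_rfl)
    have h4 : ((2 : ℝ) - 1) ^ (-κ) = 1 := by norm_num
    rw [h4] at h3
    linarith
  obtain ⟨B, hB⟩ : ∃ B : ℝ, B = 2 * c₂ * 2 ^ κ / c₁ := ⟨_, rfl⟩
  have hB0 : 0 < B := by rw [hB]; positivity
  obtain ⟨A, hA1, hA2⟩ : ∃ A : ℝ, 1 ≤ A ∧ c₂ * 2 ^ κ * Real.exp (-A / 2) ≤ c₁ / 2 := by
    refine ⟨max 1 (2 * Real.log B), le_max_left _ _, ?_⟩
    have h3 : Real.exp (-(max 1 (2 * Real.log B)) / 2) ≤ Real.exp (-Real.log B) := by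
      apply Real.exp_le_exp.2
      have := le_max_right 1 (2 * Real.log B)
      linarith
    rw [Real.exp_neg, Real.exp_log hB0] at h3
    calc c₂ * 2 ^ κ * Real.exp (-(max 1 (2 * Real.log B)) / 2) ≤ c₂ * 2 ^ κ * B⁻¹ :=
          mul_le_mul_of_nonneg_left h3 (by positivity)
      _ = c₁ / 2 := by
          rw [hB]
          field_simp
  have hA0 : 0 < A := by linarith
  refine ⟨c₁ / 2 * A ^ (-κ), by positivity, Real.exp A, fun y hy => ?_⟩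
  have hy0 : 0 < y := (Real.exp_pos A).trans_le hy
  have hly : A ≤ Real.log y := (Real.le_log_iff_exp_le hy0).2 hy
  have hly0 : 0 < Real.log y := by linarith
  obtain ⟨δ, hδ⟩ : ∃ δ : ℝ, δ = A / Real.log y := ⟨_, rfl⟩
  have hδ0 : 0 < δ := by rw [hδ]; positivity
  have hδ1 : δ ≤ 1 := by rw [hδ, div_le_one hly0]; exact hly
  have h3 := h1 (1 + δ) (by linarith) (by linarith)
  have h4 := h2 (1 + δ / 2) (by linarith) (by linarith)
  rw [add_sub_cancel_left] at h3 h4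
  have hsum : Summable fun d : ℕ => if d ∈ (Finset.Icc 1 ⌊y⌋₊).filter P then (1 : ℝ) / d else 0 :=
    summable_of_ne_finset_zero (s := (Finset.Icc 1 ⌊y⌋₊).filter P) fun d hd => if_neg hd
  have hts : ∑' d : ℕ, (if d ∈ (Finset.Icc 1 ⌊y⌋₊).filter P then (1 : ℝ) / d else 0) =
      ∑ d ∈ (Finset.Icc 1 ⌊y⌋₊).filter P, (1 : ℝ) / d := by
    rw [tsum_eq_sum (s := (Finset.Icc 1 ⌊y⌋₊).filter P) fun d hd => if_neg hd]
    exact Finset.sum_congr rfl fun d hd => if_pos hd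
  have h5 : ds P (1 + δ) ≤ (∑ d ∈ (Finset.Icc 1 ⌊y⌋₊).filter P, (1 : ℝ) / d) +
      Real.exp (-A / 2) * ds P (1 + δ / 2) := by
    unfold ds
    rw [← hts, ← tsum_mul_left, ← (hsum.tsum_add ((hs (1 + δ / 2) (by linarith)).mul_left _))]
    exact Summable.tsum_le_tsum (fun d => Kar_pt hA0 hly0 hy0 hδ d) (hs _ (by linarith))
      (hsum.add ((hs (1 + δ / 2) (by linarith)).mul_left _))
  have h6 : (δ / 2) ^ (-κ) = δ ^ (-κ) * 2 ^ κ := by
    rw [Real.div_rpow hδ0.le (by norm_num), Real.rpow_neg (by norm_num : (0:ℝ) ≤ 2), div_inv_eq_mul]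
  have h7 : δ ^ (-κ) = A ^ (-κ) * Real.log y ^ κ := by
    rw [hδ, Real.div_rpow hA0.le hly0.le, Real.rpow_neg hly0.le, div_inv_eq_mul]
  have h8 : Real.exp (-A / 2) * ds P (1 + δ / 2) ≤ c₁ / 2 * δ ^ (-κ) := by
    calc Real.exp (-A / 2) * ds P (1 + δ / 2) ≤ Real.exp (-A / 2) * (c₂ * (δ ^ (-κ) * 2 ^ κ)) := by
          rw [← h6]
          exact mul_le_mul_of_nonneg_left h4 (by positivity)
      _ = (c₂ * 2 ^ κ * Real.exp (-A / 2)) * δ ^ (-κ) := by ring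
      _ ≤ c₁ / 2 * δ ^ (-κ) := mul_le_mul_of_nonneg_right hA2 (by positivity)
  have h9 : c₁ / 2 * A ^ (-κ) * Real.log y ^ κ = c₁ / 2 * δ ^ (-κ) := by
    rw [h7]
    ring
  rw [h9]
  linarith

end H14CT
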