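import Pool.Agent.H14.CT.Jc

/-!
ROW Nd (project MP_78d38b_T1, Mathlib and the statement of Jc, about 150 lines). At least one quarter of
the classes is neutral.

PROOF. `md T ≠ 0` (`md_ne`), so `NeZero (md T)`. For a unit `c` let `n c = (c : ZMod (md T)).val`, a
natural number prime to `md T` (`ZMod.val_coe_unit_coprime`), so odd and prime to `b`, `D`: a prime
dividing `n c` and `b` is odd and divides `b D`, so lies in `T` by `hQ` and divides `md T`.
For `x = b, D` put `f x c = J(x | n c)`, equal to `1` or `-1` (`jacobiSym.eq_one_or_neg_one`). It is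
multiplicative: `n (c c') = n c * n c'` modulo `md T`, so modulo `8 ∏ q ∈ T, q` (`md_dvd`), and `Jc`,
`jacobiSym.mul_right`. Let `A` be the set of the `c` with `f b c = f D c = -1`.
Size: the class `u` of `c₀` (`ZMod.unitOfCoprime`) is in `A` (`n u = c₀` modulo `md T`, `Jc`). For each
of the four pairs of signs `(s, t)` the set `F (s, t)` of the `c` with `(f b c, f D c) = (s, t)` has
cardinality `≤ A.card`: if it is empty this is clear; otherwise choose `c₁` in it; then
`c ↦ c c₁⁻¹ u` is injective from `F (s, t)` to `A` (`f b (c c₁⁻¹ u) = s s (-1)`). The four sets cover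
all the units, and there are `(md T).totient` units (`ZMod.card_units_eq_totient`). Hence
`totient ≤ 4 A.card`.
Second claim: let `c ∈ A` and `l` a prime with `(l : ZMod (md T)) = c`; `l = n c` modulo `md T`, `l` is
prime to `md T`, so odd, not in `T`, does not divide `2 b D`; `J(b | l) = J(b | n c) = -1` by `Jc`,
so `b` is not a square modulo `l` (`not_sqm_iff`); the same for `D`.
Third claim: `n (c v) = n c * n v = n c` modulo `8 ∏ q ∈ T, q`, `Jc`.
-/

set_option autoImplicit false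
open scoped Classical

open NumberTheorySymbols

namespace H14CT

theorem Nd {b D : ℤ} (hb : b ≠ 0) (hD : D ≠ 0) {lv : ℕ} {T : Finset ℕ} (hT : ∀ q ∈ T, q.Prime ∧ q ≠ 2)
    (hQ : ∀ q : ℕ, q.Prime → q ≠ 2 → (q : ℤ) ∣ b * D → q ∈ T) {c₀ : ℕ}
    (hc₀ : c₀.Coprime (md lv T)) (h1 : J(b | c₀) = -1) (h2 : J(D | c₀) = -1) :
    ∃ A : Finset (ZMod (md lv T))ˣ, (md lv T).totient ≤ 4 * A.card ∧
      (∀ c ∈ A, ∀ l : ℕ, l.Prime → (l : ZMod (md lv T)) = c → Neu b D l) ∧
      ∀ c ∈ A, ∀ v : (ZMod (md lv T))ˣ, (v : ZMod (md lv T)).val ≡ 1 [MOD 8 * ∏ q ∈ T, q] →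
        c * v ∈ A := by
  have : NeZero (md lv T) := ⟨md_ne lv hT⟩
  have hodd : ∀ k : ℕ, k.Coprime (md lv T) → Odd k := by
    intro k hk
    have h2 : k.Coprime 2 :=
      hk.coprime_dvd_right (by unfold md; exact Dvd.dvd.mul_right (by norm_num) _)
    exact Nat.coprime_two_right.1 h2
  have hnT : ∀ k : ℕ, k.Coprime (md lv T) → ∀ q ∈ T, ¬ q ∣ k := by
    intro k hk q hq hqk
    have h1 : q ∣ md lv T := by
      unfold md
      exact Dvd.dvd.mul_left ((dvd_pow_self q (by omega)).trans (Finset.dvd_prod_of_mem (fun q => q ^ (lv + 2)) hq)) _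
    exact (hT q hq).1.one_lt.ne' (Nat.dvd_one.1 (hk ▸ Nat.dvd_gcd hqk h1))
  have hcop : ∀ k : ℕ, k.Coprime (md lv T) → IsCoprime (b * D) (k : ℤ) := by
    intro k hk
    rw [Int.isCoprime_iff_nat_coprime, Int.natAbs_natCast]
    refine Nat.Coprime.symm (Nat.coprime_of_dvd fun q hq hqk hqb => ?_)
    have hq2 : q ≠ 2 := by
      rintro rfl
      exact (Nat.not_even_iff_odd.2 (hodd k hk)) (even_iff_two_dvd.2 hqk)
    exact hnT k hk q (hQ q hq hq2 (Int.natCast_dvd.2 hqb)) hqk
  have hJ : ∀ x : ℤ, x ≠ 0 → x ∣ b * D → ∀ k k' : ℕ, k.Coprime (md lv T) → k'.Coprime (md lv T) →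
      k ≡ k' [MOD 8 * ∏ q ∈ T, q] → J(x | k) = J(x | k') := by
    intro x hx hxd k k' hk hk' h
    exact Jc hx hT (fun q hq hq2 hqx => hQ q hq hq2 (hqx.trans hxd)) (hodd k hk) (hodd k' hk')
      (IsCoprime.of_isCoprime_of_dvd_left (hcop k hk) hxd)
      (IsCoprime.of_isCoprime_of_dvd_left (hcop k' hk') hxd) h
  have hbd : b ∣ b * D := dvd_mul_right b D
  have hDd : D ∣ b * D := dvd_mul_left D b
  set n : (ZMod (md lv T))ˣ → ℕ := fun c => (c : ZMod (md lv T)).val with hn
  have hnc : ∀ c, (n c).Coprime (md lv T) := fun c => ZMod.val_coe_unit_coprime c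
  have hmod : ∀ (c : (ZMod (md lv T))ˣ) (k : ℕ), (k : ZMod (md lv T)) = (c : ZMod (md lv T)) → n c ≡ k [MOD 8 * ∏ q ∈ T, q] := by
    intro c k hk
    have h1 : n c ≡ k [MOD md lv T] := by
      rw [← ZMod.natCast_eq_natCast_iff, hk]
      simp [hn]
    exact h1.of_dvd (md_dvd lv T)
  have hne : ∀ k : ℕ, k.Coprime (md lv T) → k ≠ 0 := by
    rintro k hk rfl
    simpa using hodd 0 hk
  have hmul : ∀ x : ℤ, x ≠ 0 → x ∣ b * D → ∀ c c', J(x | n (c * c')) = J(x | n c) * J(x | n c') := by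
    intro x hx hxd c c'
    have h1 : n (c * c') ≡ n c * n c' [MOD 8 * ∏ q ∈ T, q] := hmod _ _ (by simp [hn])
    rw [hJ x hx hxd _ _ (hnc _) (Nat.Coprime.mul_left (hnc c) (hnc c')) h1,
      jacobiSym.mul_right' x (hne _ (hnc c)) (hne _ (hnc c'))]
  have hone : ∀ x : ℤ, x ≠ 0 → x ∣ b * D → J(x | n 1) = 1 := by
    intro x hx hxd
    rw [hJ x hx hxd _ 1 (hnc _) (Nat.coprime_one_left _) (hmod 1 1 (by simp)), jacobiSym.one_right]
  have hpm : ∀ x : ℤ, x ∣ b * D → ∀ c, J(x | n c) = 1 ∨ J(x | n c) = -1 := by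
    intro x hxd c
    exact jacobiSym.eq_one_or_neg_one
      (Int.isCoprime_iff_gcd_eq_one.1 (IsCoprime.of_isCoprime_of_dvd_left (hcop _ (hnc c)) hxd))
  set A : Finset (ZMod (md lv T))ˣ := Finset.univ.filter fun c => J(b | n c) = -1 ∧ J(D | n c) = -1
    with hA
  have hmem : ∀ c, c ∈ A ↔ J(b | n c) = -1 ∧ J(D | n c) = -1 := by
    intro c
    simp [hA]
  have hu : ∃ u : (ZMod (md lv T))ˣ, J(b | n u) = -1 ∧ J(D | n u) = -1 := by
    refine ⟨ZMod.unitOfCoprime c₀ hc₀, ?_, ?_⟩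
    · rw [hJ b hb hbd _ c₀ (hnc _) hc₀ (hmod _ _ (by simp)), h1]
    · rw [hJ D hD hDd _ c₀ (hnc _) hc₀ (hmod _ _ (by simp)), h2]
  obtain ⟨u, hub, huD⟩ := hu
  refine ⟨A, ?_, ?_, ?_⟩
  · have h4 : (Finset.univ : Finset (ZMod (md lv T))ˣ).card ≤
        A.card * ({(1, 1), (1, -1), (-1, 1), (-1, -1)} : Finset (ℤ × ℤ)).card := by
      refine Finset.card_le_mul_card_image_of_maps_to (f := fun c => (J(b | n c), J(D | n c))) ?_ _ ?_
      · intro c _
        rcases hpm b hbd c with h | h <;> rcases hpm D hDd c with h' | h' <;> simp [h, h']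
      · intro st _
        rcases Finset.eq_empty_or_nonempty
          (Finset.univ.filter fun c => (fun c => (J(b | n c), J(D | n c))) c = st) with h | ⟨c₁, hc₁⟩
        · rw [h]; simp
        · have hc₁' := (Finset.mem_filter.1 hc₁).2
          refine Finset.card_le_card_of_injOn (fun c => c * c₁⁻¹ * u) ?_ ?_
          · intro c hc
            have hc' := (Finset.mem_filter.1 (Finset.mem_coe.1 hc)).2
            have e1 : J(b | n c) = J(b | n c₁) := congrArg Prod.fst (hc'.trans hc₁'.symm)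
            have e2 : J(D | n c) = J(D | n c₁) := congrArg Prod.snd (hc'.trans hc₁'.symm)
            refine Finset.mem_coe.2 ((hmem _).2 ⟨?_, ?_⟩)
            · show J(b | n (c * c₁⁻¹ * u)) = -1
              rw [hmul b hb hbd, hmul b hb hbd, e1, ← hmul b hb hbd, mul_inv_cancel, hone b hb hbd,
                hub, one_mul]
            · show J(D | n (c * c₁⁻¹ * u)) = -1
              rw [hmul D hD hDd, hmul D hD hDd, e2, ← hmul D hD hDd, mul_inv_cancel, hone D hD hDd,
                huD, one_mul]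
          · intro c _ c' _ h
            exact mul_right_cancel (mul_right_cancel h)
    rw [Finset.card_univ, ZMod.card_units_eq_totient] at h4
    have h5 : ({(1, 1), (1, -1), (-1, 1), (-1, -1)} : Finset (ℤ × ℤ)).card = 4 := by decide
    rw [h5] at h4
    omega
  · intro c hc l hl hlc
    obtain ⟨hcb, hcD⟩ := (hmem c).1 hc
    have hlcop : l.Coprime (md lv T) := by
      have : IsUnit (l : ZMod (md lv T)) := hlc ▸ c.isUnit
      exact (ZMod.isUnit_iff_coprime l (md lv T)).1 this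
    have hm := hmod c l hlc
    have hbl : J(b | l) = -1 := by
      rw [← hJ b hb hbd _ _ (hnc c) hlcop hm, hcb]
    have hDl : J(D | l) = -1 := by
      rw [← hJ D hD hDd _ _ (hnc c) hlcop hm, hcD]
    have hlodd := hodd l hlcop
    have hl2 : l ≠ 2 := by
      rintro rfl
      exact absurd hlodd (by decide)
    have hlbD : ¬ (l : ℤ) ∣ b * D := fun h => hnT l hlcop l (hQ l hl hl2 h) dvd_rfl
    have hlb : ¬ (l : ℤ) ∣ b := fun h => hlbD (h.mul_right D)
    have hlD : ¬ (l : ℤ) ∣ D := fun h => hlbD (h.mul_left b)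
    refine ⟨fun h => ?_, (not_sqm_iff hl hlb).2 hbl, (not_sqm_iff hl hlD).2 hDl⟩
    rcases (Nat.prime_iff_prime_int.1 hl).dvd_or_dvd h with h | h
    · have : l ∣ 2 := by exact_mod_cast h
      exact hl2 ((Nat.prime_dvd_prime_iff_eq hl Nat.prime_two).1 this)
    · exact hlbD h
  · intro c hc v hv
    obtain ⟨hcb, hcD⟩ := (hmem c).1 hc
    have hv' : n v ≡ 1 [MOD 8 * ∏ q ∈ T, q] := hv
    have key : ∀ x : ℤ, x ≠ 0 → x ∣ b * D → J(x | n (c * v)) = J(x | n c) := by
      intro x hx hxd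
      rw [hmul x hx hxd, hJ x hx hxd _ 1 (hnc v) (Nat.coprime_one_left _) hv', jacobiSym.one_right,
        mul_one]
    exact (hmem _).2 ⟨by rw [key b hb hbd, hcb], by rw [key D hD hDd, hcD]⟩

end H14CT
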