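import Pool.Agent.H14.CT.Df

/-!
ROW Ra (project MP_78d38b_T1, Mathlib only, about 120 lines). The series of `Λ(n) / log n` over a
residue class near `s = 1`.

PROOF. Let `f n = residueClass a n / Real.log n` (real, `f 0 = f 1 = 0`), regarded as complex valued.
(1) `|f n| ≤ residueClass a n / log 2`, so the abscissa of absolute convergence of `f` is `≤ 1`
(`abscissaOfAbsConv_residueClass_le_one`, `abscissaOfAbsConv_le_of_...`/`LSeriesSummable` comparison).
(2) `LSeries_hasDerivAt` (Mathlib, NumberTheory/LSeries/Deriv.lean): the derivative of `LSeries f` at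
`s`, `1 < s.re`, is `- LSeries (logMul f) s` and `logMul f n = residueClass a n` for all `n` (for
`n = 1` both sides are zero, for `n = 0` the terms of an L-series vanish: `LSeries_congr`).
(3) `H s = (LSeries f s).re + (m.totient)⁻¹ * log (s - 1)` for real `s > 1` is differentiable
(`HasDerivAt.real_of_complex`) with derivative `- (LSeries (residueClass a) s).re +
(m.totient)⁻¹ / (s - 1) = - (LFunctionResidueClassAux a s).re`, by `eqOn_LFunctionResidueClassAux`
(see the use of these lemmas in Pool/Agent/H4/Mertens.lean, theorem `tsum_vonMangoldt_eq`, which is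
the case of the modulus one). The function `x ↦ (LFunctionResidueClassAux a x).re` is continuous on
`Icc 1 2` (`continuousOn_LFunctionResidueClassAux`), so bounded by some `K` there.
(4) By the mean value inequality (`Convex.norm_image_sub_le_of_norm_hasDerivWithin_le` on `Ioc 1 2`)
`|H s - H 2| ≤ K`, so `C = K + |H 2|` works. Finally `(LSeries f s).re` is the real series of the
statement (`Complex.ofReal_tsum`, as in `tsum_vonMangoldt_eq`).
-/

set_option autoImplicit false
open scoped Classical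

open ArithmeticFunction ArithmeticFunction.vonMangoldt

namespace H14CT

theorem Ra_one {m : ℕ} (a : ZMod m) : residueClass a 1 = 0 := by
  apply le_antisymm _ (residueClass_nonneg a 1)
  have h := residueClass_le a 1
  rwa [vonMangoldt_apply_one] at h

/-- The coefficients. -/
noncomputable def Ra_f {m : ℕ} (a : ZMod m) (n : ℕ) : ℂ := ((residueClass a n / Real.log n : ℝ) : ℂ)

theorem Ra_norm {m : ℕ} (a : ZMod m) (n : ℕ) :
    ‖Ra_f a n‖ ≤ ‖(((Real.log 2)⁻¹ : ℝ) : ℂ) * ((residueClass a n : ℝ) : ℂ)‖ := by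
  have hl2 : 0 < Real.log 2 := Real.log_pos (by norm_num)
  have h0 := residueClass_nonneg a n
  rw [← Complex.ofReal_mul, Complex.norm_real, Real.norm_of_nonneg (by positivity), Ra_f,
    Complex.norm_real, norm_div, Real.norm_of_nonneg h0]
  rcases Nat.lt_or_ge n 2 with hn | hn
  · have h1 : residueClass a n = 0 := by
      interval_cases n
      · exact residueClass_apply_zero a
      · exact Ra_one a
    rw [h1, zero_div, mul_zero]
  · have h2 : Real.log 2 ≤ Real.log n :=
      Real.log_le_log (by norm_num) (by exact_mod_cast hn)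
    rw [Real.norm_of_nonneg (hl2.le.trans h2), div_eq_mul_inv, mul_comm]
    exact mul_le_mul_of_nonneg_right (inv_anti₀ hl2 h2) h0

theorem Ra_abs {m : ℕ} (a : ZMod m) : LSeries.abscissaOfAbsConv (Ra_f a) ≤ 1 := by
  refine LSeries.abscissaOfAbsConv_le_of_forall_lt_LSeriesSummable fun y hy => ?_
  have h1 : LSeriesSummable (fun n => ((residueClass a n : ℝ) : ℂ)) (y : ℂ) := by
    apply LSeriesSummable_of_abscissaOfAbsConv_lt_re
    refine lt_of_le_of_lt (abscissaOfAbsConv_residueClass_le_one a) ?_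
    rw [Complex.ofReal_re]
    exact_mod_cast hy
  have h2 := h1.smul (((Real.log 2)⁻¹ : ℝ) : ℂ)
  refine Summable.of_norm_bounded h2.norm fun n => ?_
  exact LSeries.norm_term_le _ (Ra_norm a n)

theorem Ra_log {m : ℕ} (a : ZMod m) (n : ℕ) (hn : n ≠ 0) :
    LSeries.logMul (Ra_f a) n = ((residueClass a n : ℝ) : ℂ) := by
  rw [LSeries.logMul, ← Complex.natCast_log, Ra_f, ← Complex.ofReal_mul]
  congr 1
  rcases Nat.lt_or_ge n 2 with h | h
  · have h1 : n = 1 := by omega
    subst h1
    rw [Ra_one]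
    simp
  · have h2 : 0 < Real.log n := Real.log_pos (by exact_mod_cast h)
    field_simp

theorem Ra_re {m : ℕ} (a : ZMod m) {s : ℝ} (hs : 1 < s) :
    (LSeries (Ra_f a) s).re = ∑' n : ℕ, residueClass a n / Real.log n * (n : ℝ) ^ (-s) := by
  have h1 : LSeriesSummable (Ra_f a) (s : ℂ) := by
    apply LSeriesSummable_of_abscissaOfAbsConv_lt_re
    refine lt_of_le_of_lt (Ra_abs a) ?_
    rw [Complex.ofReal_re]
    exact_mod_cast hs
  rw [LSeries, Complex.re_tsum h1]
  refine tsum_congr fun n => ?_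
  rcases eq_or_ne n 0 with rfl | hn
  · rw [LSeries.term_zero, residueClass_apply_zero]
    simp
  · rw [LSeries.term_of_ne_zero hn, Ra_f, ← Complex.ofReal_natCast n,
      ← Complex.ofReal_cpow n.cast_nonneg, ← Complex.ofReal_div, Complex.ofReal_re,
      Real.rpow_neg n.cast_nonneg, div_eq_mul_inv _ ((n : ℝ) ^ s)]

theorem Ra_der {m : ℕ} [NeZero m] {a : ZMod m} (ha : IsUnit a) {s : ℝ} (hs : 1 < s) :
    HasDerivAt (fun x : ℝ => (LSeries (Ra_f a) x).re + (m.totient : ℝ)⁻¹ * Real.log (x - 1))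
      (-(LFunctionResidueClassAux a s).re) s := by
  have hab : LSeries.abscissaOfAbsConv (Ra_f a) < ((s : ℂ).re : EReal) := by
    refine lt_of_le_of_lt (Ra_abs a) ?_
    rw [Complex.ofReal_re]
    exact_mod_cast hs
  have h1 := (LSeries_hasDerivAt hab).real_of_complex
  have h2 : LSeries (LSeries.logMul (Ra_f a)) (s : ℂ) =
      LSeries (fun n => ((residueClass a n : ℝ) : ℂ)) (s : ℂ) :=
    LSeries_congr (fun {n} hn => Ra_log a n hn) _
  rw [h2] at h1
  have h3 : HasDerivAt (fun x : ℝ => (m.totient : ℝ)⁻¹ * Real.log (x - 1))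
      ((m.totient : ℝ)⁻¹ * (1 / (s - 1))) s :=
    (((hasDerivAt_id' s).sub_const 1).log (by linarith)).const_mul _
  refine (h1.add h3).congr_deriv ?_
  have h4 : LFunctionResidueClassAux a (s : ℂ) =
      LSeries (fun n => ((residueClass a n : ℝ) : ℂ)) (s : ℂ) -
        ((((m.totient : ℝ)⁻¹ / (s - 1) : ℝ)) : ℂ) := by
    have h5 := eqOn_LFunctionResidueClassAux ha
      (Set.mem_ofPred.mpr (show 1 < ((s : ℂ)).re by rwa [Complex.ofReal_re]))
    rw [h5]
    push_cast
    rfl
  rw [h4, Complex.sub_re, Complex.ofReal_re, Complex.neg_re]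
  ring

theorem Ra {m : ℕ} [NeZero m] {a : ZMod m} (ha : IsUnit a) : ∃ C : ℝ, ∀ s : ℝ, 1 < s → s ≤ 2 →
    |(∑' n : ℕ, residueClass a n / Real.log n * (n : ℝ) ^ (-s)) +
      (m.totient : ℝ)⁻¹ * Real.log (s - 1)| ≤ C := by
  have hcont : ContinuousOn (fun x : ℝ ↦ (LFunctionResidueClassAux a x).re) (Set.Icc 1 2) :=
    Complex.continuous_re.continuousOn.comp (t := Set.univ)
      (continuousOn_LFunctionResidueClassAux a)
      (fun ⦃x⦄ a ↦ trivial) |>.comp Complex.continuous_ofReal.continuousOn fun x hx ↦ by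
        simpa only [Set.mem_ofPred_eq, Complex.ofReal_re] using hx.1
  obtain ⟨K, hK⟩ := (isCompact_Icc.bddAbove_image hcont.abs)
  have hK' : ∀ x ∈ Set.Icc (1:ℝ) 2, |(LFunctionResidueClassAux a x).re| ≤ K := fun x hx =>
    hK ⟨x, hx, rfl⟩
  have hK0 : 0 ≤ K := (abs_nonneg _).trans (hK' 1 ⟨le_rfl, by norm_num⟩)
  set H : ℝ → ℝ := fun x : ℝ => (LSeries (Ra_f a) x).re +
    (m.totient : ℝ)⁻¹ * Real.log (x - 1) with hH
  refine ⟨K + |H 2|, fun s hs hs2 => ?_⟩
  have h1 : ‖H s - H 2‖ ≤ K * ‖s - 2‖ := by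
    refine Convex.norm_image_sub_le_of_norm_hasDerivWithin_le (s := Set.Ioc (1 : ℝ) 2)
      (f' := fun x : ℝ => -(LFunctionResidueClassAux a (x : ℂ)).re)
      (fun x hx => (Ra_der ha hx.1).hasDerivWithinAt) (fun x hx => ?_) (convex_Ioc 1 2)
      ⟨by norm_num, le_rfl⟩ ⟨hs, hs2⟩
    rw [norm_neg, Real.norm_eq_abs]
    exact hK' x ⟨hx.1.le, hx.2⟩
  have h2 : ‖s - 2‖ ≤ 1 := by
    rw [Real.norm_eq_abs, abs_le]
    constructor <;> linarith
  have h3 : K * ‖s - 2‖ ≤ K * 1 := mul_le_mul_of_nonneg_left h2 hK0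
  rw [← Ra_re a hs]
  have h4 : H s = (LSeries (Ra_f a) s).re + (m.totient : ℝ)⁻¹ * Real.log (s - 1) := rfl
  rw [← h4]
  have h5 : |H s| ≤ |H s - H 2| + |H 2| := by
    have := abs_add_le (H s - H 2) (H 2)
    rwa [sub_add_cancel] at this
  rw [Real.norm_eq_abs] at h1
  linarith

end H14CT
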