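import Pool.Agent.H14.CT.Df

/-!
ROW Rb (project MP_78d38b_T1, Mathlib only, about 80 lines). Primes against prime powers in the series
of a residue class.

PROOF. For a prime `p` the term `residueClass a p / log p * p ^ (-s)` is `p ^ (-s)` if `p = a` in
`ZMod m` and zero otherwise (`residueClass` is an indicator of `Λ`, `vonMangoldt_apply_prime`,
`log p > 0`); for `n` not prime the term of `ds` is zero. So the difference of the two series is
`∑' n, (if n.Prime then 0 else residueClass a n) / log n * n ^ (-s)`, whose terms lie between `0` and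
`(log 2)⁻¹ * ((if n.Prime then 0 else residueClass a n) / n)`, since `n ^ (-s) ≤ n⁻¹` for `n ≥ 1`,
`s > 1`, and `log n ≥ log 2` for `n ≥ 2` (for `n = 0, 1` the value of `residueClass a n` is zero).
The last series converges: `summable_residueClass_non_primes_div`. Take for `C` its sum. Both series
converge for `s > 1`: `ds` by comparison with `∑ n ^ (-s)` (`Real.summable_nat_rpow`), and the other
one as the sum of `ds` and of the difference.
-/

set_option autoImplicit false
open scoped Classical

open ArithmeticFunction ArithmeticFunction.vonMangoldt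

namespace H14CT

theorem Rb_d {m : ℕ} [NeZero m] (a : ZMod m) {s : ℝ} (hs : 1 < s) (n : ℕ) :
    0 ≤ (if n.Prime then 0 else residueClass a n) / Real.log n * (n : ℝ) ^ (-s) ∧
    (if n.Prime then 0 else residueClass a n) / Real.log n * (n : ℝ) ^ (-s) ≤
      (Real.log 2)⁻¹ * ((if n.Prime then 0 else residueClass a n) / n) := by
  obtain ⟨g, hg⟩ : ∃ g : ℝ, g = if n.Prime then 0 else residueClass a n := ⟨_, rfl⟩
  rw [← hg]
  have hg0 : 0 ≤ g := by
    rw [hg]
    split_ifs
    · exact le_rfl
    · exact residueClass_nonneg a n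
  have hl2 : 0 < Real.log 2 := Real.log_pos (by norm_num)
  rcases lt_or_ge n 2 with hn | hn
  · have hr : residueClass a n = 0 := by
      have h1 := residueClass_nonneg a n
      have h2 := residueClass_le a n
      have h3 : vonMangoldt n = 0 := by
        have : n = 0 ∨ n = 1 := by omega
        rcases this with rfl | rfl
        · simp
        · simp
      rw [h3] at h2
      exact le_antisymm h2 h1
    have hg' : g = 0 := by
      rw [hg, hr]
      simp
    rw [hg']
    simp
  · have hn2 : (2 : ℝ) ≤ n := by exact_mod_cast hn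
    have hn0 : (0 : ℝ) < n := by linarith
    have hln : Real.log 2 ≤ Real.log n := Real.log_le_log (by norm_num) hn2
    have hln0 : 0 < Real.log n := lt_of_lt_of_le hl2 hln
    have hp0 : 0 ≤ (n : ℝ) ^ (-s) := Real.rpow_nonneg hn0.le _
    have hp1 : (n : ℝ) ^ (-s) ≤ (n : ℝ)⁻¹ := by
      rw [← Real.rpow_neg_one]
      exact Real.rpow_le_rpow_of_exponent_le (by linarith) (by linarith)
    refine ⟨by positivity, ?_⟩
    have h1 : g / Real.log n ≤ g / Real.log 2 := div_le_div_of_nonneg_left hg0 hl2 hln
    calc g / Real.log n * (n : ℝ) ^ (-s) ≤ g / Real.log 2 * (n : ℝ)⁻¹ :=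
          mul_le_mul h1 hp1 hp0 (by positivity)
      _ = (Real.log 2)⁻¹ * (g / n) := by ring

theorem Rb {m : ℕ} [NeZero m] (a : ZMod m) : ∃ C : ℝ, ∀ s : ℝ, 1 < s →
    |(∑' n : ℕ, residueClass a n / Real.log n * (n : ℝ) ^ (-s)) -
      ds (fun p => p.Prime ∧ (p : ZMod m) = a) s| ≤ C := by
  have hS : Summable fun n : ℕ => (Real.log 2)⁻¹ * ((if n.Prime then 0 else residueClass a n) / n) :=
    (summable_residueClass_non_primes_div a).mul_left _
  refine ⟨∑' n : ℕ, (Real.log 2)⁻¹ * ((if n.Prime then 0 else residueClass a n) / n), ?_⟩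
  intro s hs
  have hd : Summable fun n : ℕ =>
      (if n.Prime then 0 else residueClass a n) / Real.log n * (n : ℝ) ^ (-s) :=
    Summable.of_nonneg_of_le (fun n => (Rb_d a hs n).1) (fun n => (Rb_d a hs n).2) hS
  have ht : Summable fun n : ℕ =>
      if (n.Prime ∧ (n : ZMod m) = a) then (n : ℝ) ^ (-s) else 0 := by
    refine Summable.of_nonneg_of_le (fun n => ?_) (fun n => ?_)
      (Real.summable_nat_rpow.2 (by linarith : -s < -1))
    · split_ifs
      · positivity
      · exact le_rfl
    · split_ifs
      · exact le_rfl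
      · positivity
  have hsplit : ∀ n : ℕ, residueClass a n / Real.log n * (n : ℝ) ^ (-s) =
      (if (n.Prime ∧ (n : ZMod m) = a) then (n : ℝ) ^ (-s) else 0) +
        (if n.Prime then 0 else residueClass a n) / Real.log n * (n : ℝ) ^ (-s) := by
    intro n
    by_cases hp : n.Prime
    · rw [if_pos hp, zero_div, zero_mul, add_zero]
      by_cases ha : (n : ZMod m) = a
      · rw [if_pos ⟨hp, ha⟩]
        have h1 : residueClass a n = vonMangoldt n := by
          unfold residueClass
          exact Set.indicator_of_mem (by exact ha) _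
        have hlog : Real.log n ≠ 0 := by
          have h2 : (1 : ℝ) < n := by exact_mod_cast hp.one_lt
          exact (Real.log_pos h2).ne'
        rw [h1, vonMangoldt_apply_prime hp, div_self hlog, one_mul]
      · rw [if_neg (fun h => ha h.2)]
        have h1 : residueClass a n = 0 := by
          unfold residueClass
          exact Set.indicator_of_notMem (by exact ha) _
        rw [h1, zero_div, zero_mul]
    · rw [if_neg hp, if_neg (fun h => hp h.1), zero_add]
  have hsum : (∑' n : ℕ, residueClass a n / Real.log n * (n : ℝ) ^ (-s)) -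
      ds (fun p => p.Prime ∧ (p : ZMod m) = a) s =
      ∑' n : ℕ, (if n.Prime then 0 else residueClass a n) / Real.log n * (n : ℝ) ^ (-s) := by
    unfold ds
    simp only [hsplit]
    rw [ht.tsum_add hd]
    ring
  rw [hsum, abs_of_nonneg (tsum_nonneg fun n => (Rb_d a hs n).1)]
  exact hd.tsum_le_tsum (fun n => (Rb_d a hs n).2) hS

end H14CT
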