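import Pool.Agent.H14.CT.Ra
import Pool.Agent.H14.CT.Rb
import Pool.Agent.H14.CT.Eu
import Pool.Agent.H14.CT.Kar

/-!
ROW Sl (project MP_78d38b_T1, Mathlib and the statements of Ra, Rb, Eu, Kar, about 150 lines). Lower
bound for `∑ 1 / d` over the squarefree `d` with prime factors in given classes.

PROOF. Put `Q p = ((p : ZMod m) ∈ A ∧ p ∉ F)`, `S s = ds (fun p => p.Prime ∧ Q p) s`, `κ =
A.card / m.totient > 0`.
(1) There is `C` with `|S s + κ log (s - 1)| ≤ C` for `1 < s ≤ 2`: by `Ra` and `Rb` for each `a ∈ A`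
`|ds (fun p => p.Prime ∧ (p : ZMod m) = a) s + (1/φ) log (s - 1)| ≤ C_a`; the sum over `a ∈ A` of
these series is `ds (fun p => p.Prime ∧ (p : ZMod m) ∈ A) s` (the classes are disjoint;
`tsum_finsetSum`-like lemma `Summable.tsum_finsetSum`, all series converge by comparison with
`∑ n ^ (-s)`), and removing the primes in `F` changes the sum by at most `F.card` (each term is at most
`1`): `ds` of the removed ones is a finite sum, supported in `F` (`tsum_eq_sum`).
(2) By `Eu`: `exp (S s - 1) ≤ ds (SF Q) s ≤ exp (S s)`, and `exp (S s)` lies between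
`exp (-C) (s - 1) ^ (-κ)` and `exp C (s - 1) ^ (-κ)` (`Real.rpow_def_of_pos`).
(3) Apply `Kar` with `c₁ = exp (-C - 1)`, `c₂ = exp C`.
-/

set_option autoImplicit false
open scoped Classical

namespace H14CT

theorem Sl_summable (P : ℕ → Prop) {s : ℝ} (hs : 1 < s) :
    Summable fun n : ℕ => if P n then (n : ℝ) ^ (-s) else 0 := by
  refine Summable.of_nonneg_of_le (fun n => ?_) (fun n => ?_)
    (Real.summable_nat_rpow.2 (by linarith : -s < -1))
  · split_ifs
    · positivity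
    · exact le_rfl
  · split_ifs
    · exact le_rfl
    · positivity

theorem Sl_class {m : ℕ} [NeZero m] {a : ZMod m} (ha : IsUnit a) : ∃ C : ℝ, ∀ s : ℝ, 1 < s →
    s ≤ 2 → |ds (fun p => p.Prime ∧ (p : ZMod m) = a) s + (m.totient : ℝ)⁻¹ * Real.log (s - 1)| ≤
      C := by
  obtain ⟨C1, h1⟩ := Ra ha
  obtain ⟨C2, h2⟩ := Rb a
  refine ⟨C1 + C2, fun s hs hs2 => ?_⟩
  have h3 := abs_le.1 (h1 s hs hs2)
  have h4 := abs_le.1 (h2 s hs)
  rw [abs_le]
  constructor <;> linarith [h3.1, h3.2, h4.1, h4.2]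

theorem Sl_sum {m : ℕ} [NeZero m] (A : Finset (ZMod m)) {s : ℝ} (hs : 1 < s) :
    ∑ a ∈ A, ds (fun p => p.Prime ∧ (p : ZMod m) = a) s =
      ds (fun p => p.Prime ∧ (p : ZMod m) ∈ A) s := by
  unfold ds
  rw [← Summable.tsum_finsetSum fun a _ => Sl_summable _ hs]
  refine tsum_congr fun n => ?_
  by_cases hp : n.Prime
  · simp only [hp, true_and]
    rw [Finset.sum_ite_eq]
  · simp [hp]

theorem Sl_remove {m : ℕ} [NeZero m] (A : Finset (ZMod m)) (F : Finset ℕ) {s : ℝ} (hs : 1 < s) :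
    |ds (fun p => p.Prime ∧ ((p : ZMod m) ∈ A ∧ p ∉ F)) s -
      ds (fun p => p.Prime ∧ (p : ZMod m) ∈ A) s| ≤ F.card := by
  have e : ds (fun p => p.Prime ∧ (p : ZMod m) ∈ A) s =
      ds (fun p => p.Prime ∧ ((p : ZMod m) ∈ A ∧ p ∉ F)) s +
        ds (fun p => p.Prime ∧ ((p : ZMod m) ∈ A ∧ p ∈ F)) s := by
    unfold ds
    rw [← (Sl_summable _ hs).tsum_add (Sl_summable _ hs)]
    refine tsum_congr fun n => ?_
    by_cases hp : n.Prime
    · by_cases hA : (n : ZMod m) ∈ A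
      · by_cases hF : n ∈ F
        · simp [hp, hA, hF]
        · simp [hp, hA, hF]
      · simp [hA]
    · simp [hp]
  have h0 : 0 ≤ ds (fun p => p.Prime ∧ ((p : ZMod m) ∈ A ∧ p ∈ F)) s := by
    unfold ds
    refine tsum_nonneg fun n => ?_
    split_ifs
    · positivity
    · exact le_rfl
  have h1 : ds (fun p => p.Prime ∧ ((p : ZMod m) ∈ A ∧ p ∈ F)) s ≤ F.card := by
    unfold ds
    rw [tsum_eq_sum (s := F)]
    · refine (Finset.sum_le_card_nsmul F _ 1 fun n _ => ?_).trans (by simp)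
      split_ifs with h
      · have hn : (1 : ℝ) ≤ n := by exact_mod_cast h.1.one_lt.le
        exact Real.rpow_le_one_of_one_le_of_nonpos hn (by linarith)
      · exact zero_le_one
    · intro n hn
      exact if_neg fun h => hn h.2.2
  rw [e, abs_le]
  constructor <;> linarith

theorem Sl {m : ℕ} [NeZero m] {A : Finset (ZMod m)} (hA : ∀ a ∈ A, IsUnit a) (hne : A.Nonempty)
    (F : Finset ℕ) : ∃ c : ℝ, 0 < c ∧ ∃ Y : ℝ, ∀ y : ℝ, Y ≤ y →
      c * (Real.log y) ^ ((A.card : ℝ) / m.totient) ≤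
        ∑ d ∈ (Finset.Icc 1 ⌊y⌋₊).filter (SF fun p => (p : ZMod m) ∈ A ∧ p ∉ F), (1 : ℝ) / d := by
  have hC0 : ∀ a : ZMod m, ∃ C : ℝ, a ∈ A → ∀ s : ℝ, 1 < s → s ≤ 2 →
      |ds (fun p => p.Prime ∧ (p : ZMod m) = a) s + (m.totient : ℝ)⁻¹ * Real.log (s - 1)| ≤ C := by
    intro a
    by_cases ha : a ∈ A
    · obtain ⟨C, hC⟩ := Sl_class (hA a ha)
      exact ⟨C, fun _ => hC⟩
    · exact ⟨0, fun h => absurd h ha⟩
  choose C hC using hC0
  have hφ : (0 : ℝ) < m.totient := by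
    exact_mod_cast Nat.totient_pos.2 (Nat.pos_of_ne_zero (NeZero.ne m))
  have hcard : (0 : ℝ) < A.card := by exact_mod_cast hne.card_pos
  have hκ : 0 < (A.card : ℝ) / m.totient := div_pos hcard hφ
  have hS : ∀ s : ℝ, 1 < s → s ≤ 2 →
      |ds (fun p => p.Prime ∧ ((p : ZMod m) ∈ A ∧ p ∉ F)) s +
        (A.card : ℝ) / m.totient * Real.log (s - 1)| ≤ ∑ a ∈ A, C a + F.card := by
    intro s hs hs2
    have h1 : |ds (fun p => p.Prime ∧ (p : ZMod m) ∈ A) s +
        (A.card : ℝ) / m.totient * Real.log (s - 1)| ≤ ∑ a ∈ A, C a := by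
      have e : ds (fun p => p.Prime ∧ (p : ZMod m) ∈ A) s +
          (A.card : ℝ) / m.totient * Real.log (s - 1) =
          ∑ a ∈ A, (ds (fun p => p.Prime ∧ (p : ZMod m) = a) s +
            (m.totient : ℝ)⁻¹ * Real.log (s - 1)) := by
        rw [Finset.sum_add_distrib, Sl_sum A hs, Finset.sum_const, nsmul_eq_mul]
        ring
      rw [e]
      exact (Finset.abs_sum_le_sum_abs _ _).trans
        (Finset.sum_le_sum fun a ha => hC a ha s hs hs2)
    have h2 := abs_le.1 (Sl_remove A F hs)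
    have h3 := abs_le.1 h1
    rw [abs_le]
    constructor <;> linarith [h2.1, h2.2, h3.1, h3.2]
  have hpow : ∀ s : ℝ, 1 < s → ∀ t : ℝ,
      Real.exp t * (s - 1) ^ (-((A.card : ℝ) / m.totient)) =
        Real.exp (t - (A.card : ℝ) / m.totient * Real.log (s - 1)) := by
    intro s hs t
    rw [Real.rpow_def_of_pos (by linarith), ← Real.exp_add]
    congr 1
    ring
  refine Kar (P := SF fun p => (p : ZMod m) ∈ A ∧ p ∉ F) hκ
    (c₁ := Real.exp (-(∑ a ∈ A, C a + F.card) - 1)) (c₂ := Real.exp (∑ a ∈ A, C a + F.card))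
    (Real.exp_pos _) (fun s hs => (Eu _ hs).1) (fun s hs hs2 => ?_) (fun s hs hs2 => ?_)
  · rw [hpow s hs]
    refine le_trans (Real.exp_le_exp.2 ?_) (Eu _ hs).2.1
    have := (abs_le.1 (hS s hs hs2)).1
    linarith
  · rw [hpow s hs]
    refine (Eu _ hs).2.2.trans (Real.exp_le_exp.2 ?_)
    have := (abs_le.1 (hS s hs hs2)).2
    linarith

end H14CT
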